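import Pool.Agent.W209.CF.Stm
import Pool.Agent.W999.CF3.F9

/-!
The choice of the state: every leftover hole weakly enters at most one component.
-/

namespace Pool.Agent.W209.CF

open Finset Pool.Agent.W999.CF3

section
variable {V E : Type} [Fintype V] [DecidableEq V] [Fintype E] [DecidableEq E]
variable {inc : E → Finset V}

theorem exists_min_nat {α : Type} (P : α → Prop) (f : α → ℕ) (h : ∃ a, P a) :
    ∃ a, P a ∧ ∀ b, P b → f a ≤ f b := by
  classical
  have h1 : ∃ n, ∃ a, P a ∧ f a = n := by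
    obtain ⟨a, ha⟩ := h
    exact ⟨f a, a, ha, rfl⟩
  obtain ⟨a, ha, hfa⟩ := Nat.find_spec h1
  refine ⟨a, ha, ?_⟩
  intro b hb
  rw [hfa]
  exact Nat.find_min' h1 ⟨b, hb, rfl⟩

theorem exists_opt3 (inc : E → Finset V) : ∃ s X, Opt3 inc s X := by
  classical
  obtain ⟨s1, h1, h1m⟩ := exists_min_nat (fun s : E → Fin 3 => St inc s)
    (fun s => (holes inc s).card) ⟨fun _ => 0, by
      intro v
      have h : ∀ i : Fin 3, i ≠ 0 → cnt inc (fun _ => 0) i v = 0 := by
        intro i hi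
        rw [cnt_eq_zero]
        intro e _ h
        exact hi h.symm
      rw [h 1 (by decide), h 2 (by decide)]
      omega⟩
  obtain ⟨s2, h2, h2m⟩ := exists_min_nat (fun s : E → Fin 3 => Opt1 inc s)
    (fun s => (supp s).card) ⟨s1, h1, h1m⟩
  obtain ⟨⟨s, X⟩, ⟨h3, h4⟩, h5⟩ := exists_min_nat
    (fun q : (E → Fin 3) × Finset E => Opt2 inc q.1 ∧ TwoH inc q.1 q.2)
    (fun q => Fintype.card E - q.2.card) ⟨(s2, ∅), ⟨h2, h2m⟩, by simp [TwoH]⟩
  refine ⟨s, X, h3, h4, ?_⟩
  intro s' X' h6 h7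
  have h8 := h5 (s', X') ⟨h6, h7⟩
  have h9 : X.card ≤ Fintype.card E := Finset.card_le_univ _
  have h10 : X'.card ≤ Fintype.card E := Finset.card_le_univ _
  simp only at h8
  omega

theorem mem_wks {s : E → Fin 3} {u : V} {D : Finset E} : D ∈ wks inc s u ↔
    ∃ h, Entry inc s u h ∧ weakK inc (KK inc s h) ∧ comp inc s h = D := by
  classical
  simp [wks, and_assoc]

/-- `C` is a connected component of the state -/
def Gd (inc : E → Finset V) (t : E → Fin 3) (C : Finset E) : Prop :=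
  (∀ e ∈ C, t e ≠ 0) ∧ (∀ e ∈ C, ∀ e', Adj inc t e e' → e' ∈ C) ∧
    ∀ e ∈ C, ∀ e' ∈ C, Relation.ReflTransGen (Adj inc t) e e'

theorem gd_comp (h1 : S_F1) (hinc : ∀ e, (inc e).card = 3) {t : E → Fin 3} (ht : Opt2 inc t)
    {u : V} {h : E} (hE : Entry inc t u h) : Gd inc t (comp inc t h) :=
  ⟨fun _ he => (mem_comp.1 he).1, fun _ he _ ha => comp_closed he ha,
    fun _ he _ he' => comp_conn h1 hinc ht hE he he'⟩

theorem gd_eq {t : E → Fin 3} {C D : Finset E} (hC : Gd inc t C) (hD : Gd inc t D)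
    {e1 e2 : E} (h1 : e1 ∈ C) (h2 : e2 ∈ D) {x : V} (hx1 : x ∈ inc e1) (hx2 : x ∈ inc e2) :
    C = D := by
  have hadj : Adj inc t e1 e2 := ⟨hC.1 e1 h1, hD.1 e2 h2, x, hx1, hx2⟩
  have h3 : e2 ∈ C := hC.2.1 e1 h1 e2 hadj
  ext e
  constructor
  · intro he
    exact rtg_stay hD.2.1 h2 (hC.2.2 e2 h3 e he)
  · intro he
    exact rtg_stay hC.2.1 h3 (hD.2.2 e2 h2 e he)

/-- the other two vertices of an entry are in the component -/
theorem entry_two (hinc : ∀ e, (inc e).card = 3) {t : E → Fin 3} {u : V} {h : E}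
    (hE : Entry inc t u h) : ∃ a b, a ∈ inc h ∧ b ∈ inc h ∧ a ≠ b ∧ a ≠ u ∧ b ≠ u ∧
      a ∈ VK inc (comp inc t h) ∧ b ∈ VK inc (comp inc t h) := by
  have hc2 : ((inc h).erase u).card = 2 := by
    rw [Finset.card_erase_of_mem hE.1, hinc]
  obtain ⟨a, b, hab, hab2⟩ := Finset.card_eq_two.1 hc2
  have ha : a ∈ (inc h).erase u := by rw [hab2]; simp
  have hb : b ∈ (inc h).erase u := by rw [hab2]; simp
  rw [mem_erase] at ha hb
  have key : ∀ x ∈ inc h, x ≠ u → x ∈ VK inc (comp inc t h) := by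
    intro x hx hxu
    have h1 : dg inc t x ≠ 0 := by
      rw [hE.2.2 x hx hxu]; decide
    obtain ⟨e', h2, h3⟩ := dg_pos.1 h1
    rw [mem_VK]
    exact ⟨e', comp_touch h3 hx h2, h2⟩
  exact ⟨a, b, ha.2, hb.2, hab, ha.1, hb.1, key a ha.2 ha.1, key b hb.2 hb.1⟩

theorem VK_mono {K K' : Finset E} (h : K ⊆ K') : VK inc K ⊆ VK inc K' := by
  intro x hx
  rw [mem_VK] at hx ⊢
  obtain ⟨e, h1, h2⟩ := hx
  exact ⟨e, h h1, h2⟩

/-- a weak `K` whose vertex set contains two vertices of `h` but not the vertex `u` of `h` -/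
theorem weak_absurd {K : Finset E} (hw : weakK inc K) {h : E} {u a b : V} (hu : u ∈ inc h)
    (ha : a ∈ inc h) (hb : b ∈ inc h) (hab : a ≠ b) (huK : u ∉ VK inc K)
    (haK : a ∈ VK inc K) (hbK : b ∈ VK inc K) : False := by
  have hnot : h ∉ K := by
    intro hh
    apply huK
    rw [mem_VK]
    exact ⟨h, hh, hu⟩
  have hcard : 2 ≤ (inc h ∩ VK inc K).card := by
    have : ({a, b} : Finset V) ⊆ inc h ∩ VK inc K := by
      intro x hx
      rw [mem_insert, mem_singleton] at hx
      rcases hx with rfl | rfl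
      · exact mem_inter.2 ⟨ha, haK⟩
      · exact mem_inter.2 ⟨hb, hbK⟩
    calc 2 = ({a, b} : Finset V).card := (Finset.card_pair hab).symm
      _ ≤ _ := Finset.card_le_card this
  have h1 := hw h hnot hcard hu
  rw [mem_pri] at h1
  apply huK
  rw [← kd_pos, h1]
  decide

/-- the invariant of the chain argument -/
structure Chn (inc : E → Finset V) (s : E → Fin 3) (X : Finset E) (u0 : V) (n : ℕ)
    (t : E → Fin 3) (v : V) (Cs : Finset (Finset E)) (Cl : Finset E) : Prop where
  opt : Opt3 inc t X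
  hv : v ∉ (LL inc s X).erase u0
  hLL : LL inc t X = insert v ((LL inc s X).erase u0)
  hwk : ∀ u' ∈ LL inc s X, u' ≠ u0 → wks inc t u' ⊆ wks inc s u'
  hn : n ≤ Cs.card
  hG : ∀ C ∈ Cs, Gd inc t C
  hK : ∀ C ∈ Cs, ∃ K, C ⊆ K ∧ weakK inc K ∧ VK inc K ⊆ insert v (Cs.biUnion (VK inc)) ∧
    (C ≠ Cl → v ∉ VK inc K)

theorem chn_step (h1 : S_F1) (hmv : S_move) (hloc : S_local) (hinc : ∀ e, (inc e).card = 3)
    {s : E → Fin 3} {X : Finset E} {u0 : V} {n : ℕ} {t : E → Fin 3} {v : V}
    {Cs : Finset (Finset E)} {Cl : Finset E} (hI : Chn inc s X u0 n t v Cs Cl)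
    (h2 : 2 ≤ (wks inc t v).card) :
    ∃ t' v' Cs' Cl', Chn inc s X u0 (n + 1) t' v' Cs' Cl' := by
  classical
  have ht2 : Opt2 inc t := hI.opt.1
  have hvL : v ∈ LL inc t X := by rw [hI.hLL]; exact mem_insert_self _ _
  -- a weak entry whose component is not `Cl`
  obtain ⟨D, hD, hDl⟩ : ∃ D ∈ wks inc t v, D ≠ Cl := by
    obtain ⟨D1, hD1, D2, hD2, hne⟩ := Finset.one_lt_card.1 (by omega : 1 < (wks inc t v).card)
    by_cases h : D1 = Cl
    · exact ⟨D2, hD2, fun h' => hne (h.trans h'.symm)⟩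
    · exact ⟨D1, hD1, h⟩
  obtain ⟨h, hE, hweak, rfl⟩ := mem_wks.1 hD
  obtain ⟨a, b, ha, hb, hab, hau, hbu, haD, hbD⟩ := entry_two hinc hE
  have hGD : Gd inc t (comp inc t h) := gd_comp h1 hinc ht2 hE
  have hth : t h = 0 := dg_eq_zero.1 hE.2.1 h hE.1
  have hDC : ∀ C ∈ Cs, C ≠ comp inc t h := by
    intro C hC hCD
    obtain ⟨K, hK1, hK2, -, hK4⟩ := hI.hK C hC
    have hvK : v ∉ VK inc K := hK4 (by rw [hCD]; exact hDl)
    rw [hCD] at hK1
    exact weak_absurd hK2 hE.1 ha hb hab hvK (VK_mono hK1 haD) (VK_mono hK1 hbD)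
  have hdisj : ∀ C ∈ Cs, ∀ x, x ∈ VK inc C → x ∉ VK inc (comp inc t h) := by
    intro C hC x hx hx'
    rw [mem_VK] at hx hx'
    obtain ⟨e1, h3, h4⟩ := hx
    obtain ⟨e2, h5, h6⟩ := hx'
    exact hDC C hC (gd_eq (hI.hG C hC) hGD h3 h5 h4 h6)
  obtain ⟨e, heD, -⟩ := mem_VK.1 haD
  have heK : e ∈ KK inc t h := mem_insert_of_mem heD
  have hte : t e ≠ 0 := (mem_comp.1 heD).1
  obtain ⟨t', p, hpe, -, hO', hout, hin, hLL', hE', hKK', hcomp'⟩ :=
    hmv V E inc hinc t X hI.opt v hvL h hE e heK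
  have hdp : dg inc t p ≠ 0 := dg_pos.2 ⟨e, hpe, hte⟩
  have hpv : p ≠ v := by
    rintro rfl
    exact hdp hE.2.1
  have hpD : p ∈ VK inc (comp inc t h) := mem_VK.2 ⟨e, heD, hpe⟩
  have hhe : h ≠ e := by
    rintro rfl
    exact hte hth
  have hhC : h ∈ comp inc t' e := by
    rw [hcomp']
    exact mem_erase.2 ⟨hhe, mem_insert_self _ _⟩
  have hpL : p ∉ LL inc t X := fun hp => hdp (mem_LL_dg hp)
  have hp0 : p ∉ (LL inc s X).erase u0 := by
    intro hp
    apply hpL
    rw [hI.hLL]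
    exact mem_insert_of_mem hp
  -- hyperedges of `Cs` are outside `KK t h`
  have hCK : ∀ C ∈ Cs, ∀ e1 ∈ C, e1 ∉ KK inc t h := by
    intro C hC e1 he1 hcon
    rw [KK, mem_insert] at hcon
    rcases hcon with rfl | hcon
    · exact (hI.hG C hC).1 _ he1 hth
    · have hne : (inc e1).Nonempty := by
        rw [← Finset.card_pos, hinc]
        decide
      obtain ⟨x, hx⟩ := hne
      exact hdisj C hC x (mem_VK.2 ⟨e1, he1, hx⟩) (mem_VK.2 ⟨e1, hcon, hx⟩)
  have hC'Cs : comp inc t' e ∉ Cs := by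
    intro hcon
    exact (hI.hG _ hcon).1 h hhC hth
  refine ⟨t', p, insert (comp inc t' e) Cs, comp inc t' e, ?_⟩
  refine ⟨hO', hp0, ?_, ?_, ?_, ?_, ?_⟩
  · rw [hLL', hI.hLL, Finset.erase_insert hI.hv]
  · -- weak components only shrink
    intro u' hu' hne'
    refine Finset.Subset.trans ?_ (hI.hwk u' hu' hne')
    intro D' hD'
    obtain ⟨hs, hEs, hws, rfl⟩ := mem_wks.1 hD'
    have hu'e : u' ∈ (LL inc s X).erase u0 := mem_erase.2 ⟨hne', hu'⟩
    have hu't : u' ∈ LL inc t X := by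
      rw [hI.hLL]
      exact mem_insert_of_mem hu'e
    have hu'v : u' ≠ v := by
      rintro rfl
      exact hI.hv hu'e
    have hu'K : u' ∉ VK inc (KK inc t h) := hole_notMem hE (mem_LL_dg hu't) hu'v
    have hdis : Disjoint (inc hs) (VK inc (KK inc t h)) := by
      rw [Finset.disjoint_left]
      intro x hx1 hx2
      have hxu' : x ≠ u' := by
        rintro rfl
        exact hu'K hx2
      have hdx : dg inc t' x ≠ 0 := by
        rw [hEs.2.2 x hx1 hxu']
        decide
      obtain ⟨gx, hgx1, hgx2⟩ := dg_pos.1 hdx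
      have hgK : gx ∈ KK inc t' e := by
        by_contra hcon
        have := KK_iso hgx2 hcon
        rw [Finset.disjoint_left] at this
        exact this hgx1 (by rw [hKK']; exact hx2)
      have hgC : gx ∈ comp inc t' e := by
        rw [KK, mem_insert] at hgK
        rcases hgK with rfl | hgK
        · rw [hcomp', mem_erase]
          exfalso
          have := (hin gx heK).1 hgx2
          exact this rfl
        · exact hgK
      have hgS : gx ∈ comp inc t' hs := comp_touch hgx2 hx1 hgx1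
      have hcc : comp inc t' hs = comp inc t' e :=
        gd_eq (gd_comp h1 hinc hO'.1 hEs) (gd_comp h1 hinc hO'.1 hE') hgS hgC hgx1 hgx1
      obtain ⟨a', b', ha', hb', hab', -, -, haD', hbD'⟩ := entry_two hinc hEs
      rw [hcc, hcomp'] at haD' hbD'
      exact weak_absurd hweak hEs.1 ha' hb' hab' hu'K
        (VK_mono (Finset.erase_subset _ _) haD') (VK_mono (Finset.erase_subset _ _) hbD')
    obtain ⟨hl1, hl2⟩ := hloc V E inc hinc t t' (KK inc t h) hout
      (fun e' he' hne => KK_iso he' hne) hs hdis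
    rw [mem_wks]
    refine ⟨hs, (hl2 u').1 hEs, ?_, hl1.symm⟩
    rw [KK, ← hl1]
    exact hws
  · rw [Finset.card_insert_of_notMem hC'Cs]
    have := hI.hn
    omega
  · -- components
    intro C hC
    rw [mem_insert] at hC
    rcases hC with rfl | hC
    · exact gd_comp h1 hinc hO'.1 hE'
    · have hGC := hI.hG C hC
      have heq : ∀ e1 ∈ C, t' e1 = t e1 := fun e1 he1 => hout e1 (hCK C hC e1 he1)
      refine ⟨?_, ?_, ?_⟩
      · intro e1 he1
        rw [heq e1 he1]
        exact hGC.1 e1 he1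
      · intro e1 he1 e2 hadj
        obtain ⟨h3, h4, x, h5, h6⟩ := hadj
        have he2 : e2 ∉ KK inc t h := by
          intro hcon
          have := KK_iso (hGC.1 e1 he1) (hCK C hC e1 he1)
          rw [Finset.disjoint_left] at this
          exact this h5 (mem_VK.2 ⟨e2, hcon, h6⟩)
        refine hGC.2.1 e1 he1 e2 ⟨hGC.1 e1 he1, ?_, x, h5, h6⟩
        rw [← hout e2 he2]
        exact h4
      · intro e1 he1 e2 he2
        have h3 := hGC.2.2 e1 he1 e2 he2
        have h4 : ∀ f, Relation.ReflTransGen (Adj inc t) e1 f →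
            f ∈ C ∧ Relation.ReflTransGen (Adj inc t') e1 f := by
          intro f hf
          induction hf with
          | refl => exact ⟨he1, Relation.ReflTransGen.refl⟩
          | tail _ hab ih =>
            have h5 := hGC.2.1 _ ih.1 _ hab
            refine ⟨h5, ih.2.tail ?_⟩
            obtain ⟨h6, h7, h8⟩ := hab
            refine ⟨?_, ?_, h8⟩
            · rw [heq _ ih.1]
              exact h6
            · rw [heq _ h5]
              exact h7
        exact (h4 e2 h3).2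
  · -- the weak sets
    have hvC' : v ∈ VK inc (comp inc t' e) := mem_VK.2 ⟨h, hhC, hE.1⟩
    intro C hC
    rw [mem_insert] at hC
    rcases hC with rfl | hC
    · refine ⟨KK inc t' e, ?_, ?_, ?_, fun hcon => absurd rfl hcon⟩
      · exact Finset.subset_insert _ _
      · rw [hKK']
        exact hweak
      · intro x hx
        by_cases hxp : x = p
        · rw [hxp]
          exact mem_insert_self _ _
        · obtain ⟨f, hf1, hf2⟩ := exists_comp hE' hx hxp
          refine mem_insert_of_mem (mem_biUnion.2 ⟨comp inc t' e, mem_insert_self _ _, ?_⟩)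
          exact mem_VK.2 ⟨f, hf1, hf2⟩
    · obtain ⟨K, hK1, hK2, hK3, -⟩ := hI.hK C hC
      refine ⟨K, hK1, hK2, ?_, ?_⟩
      · intro x hx
        have h3 := hK3 hx
        rw [mem_insert] at h3
        rcases h3 with rfl | h3
        · exact mem_insert_of_mem (mem_biUnion.2 ⟨comp inc t' e, mem_insert_self _ _, hvC'⟩)
        · rw [mem_biUnion] at h3
          obtain ⟨C2, h4, h5⟩ := h3
          exact mem_insert_of_mem (mem_biUnion.2 ⟨C2, mem_insert_of_mem h4, h5⟩)
      · intro _ hpK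
        have h3 := hK3 hpK
        rw [mem_insert] at h3
        rcases h3 with h3 | h3
        · exact hpv h3
        · rw [mem_biUnion] at h3
          obtain ⟨C2, h4, h5⟩ := h3
          exact hdisj C2 h4 p h5 hpD

end

theorem cC : S_F1 → S_F2 → S_oddK → S_move → S_local → S_C := by
  intro h1 _ _ hmv hloc V E _ _ _ _ inc hinc
  classical
  obtain ⟨⟨s, X⟩, hO, hmin⟩ := exists_min_nat
    (fun q : (E → Fin 3) × Finset E => Opt3 inc q.1 q.2)
    (fun q => ((LL inc q.1 q.2).filter (fun u => 2 ≤ (wks inc q.1 u).card)).card)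
    (by
      obtain ⟨s, X, h⟩ := exists_opt3 inc
      exact ⟨(s, X), h⟩)
  simp only at hO hmin
  refine ⟨s, X, hO, ?_⟩
  intro u0 hu0
  by_contra hcon
  have hcon2 : 2 ≤ (wks inc s u0).card := by omega
  -- for every state of the chain the moved hole enters two components weakly
  have key : ∀ n t v Cs Cl, Chn inc s X u0 n t v Cs Cl → 2 ≤ (wks inc t v).card := by
    intro n t v Cs Cl hI
    by_contra hlt
    have h3 := hmin (t, X) hI.opt
    simp only at h3
    have h4 : (LL inc t X).filter (fun u => 2 ≤ (wks inc t u).card) ⊆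
        ((LL inc s X).filter (fun u => 2 ≤ (wks inc s u).card)).erase u0 := by
      intro x hx
      rw [mem_filter, hI.hLL, mem_insert] at hx
      obtain ⟨hx1, hx2⟩ := hx
      rcases hx1 with rfl | hx1
      · exact absurd hx2 hlt
      · rw [mem_erase] at hx1
        rw [mem_erase, mem_filter]
        exact ⟨hx1.1, hx1.2, hx2.trans (Finset.card_le_card (hI.hwk x hx1.2 hx1.1))⟩
    have h5 := Finset.card_le_card h4
    have h6 : u0 ∈ (LL inc s X).filter (fun u => 2 ≤ (wks inc s u).card) :=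
      mem_filter.2 ⟨hu0, hcon2⟩
    have h7 : 0 < ((LL inc s X).filter (fun u => 2 ≤ (wks inc s u).card)).card :=
      Finset.card_pos.2 ⟨u0, h6⟩
    rw [Finset.card_erase_of_mem h6] at h5
    omega
  have chain : ∀ n, ∃ t v Cs Cl, Chn inc s X u0 n t v Cs Cl := by
    intro n
    induction n with
    | zero =>
      refine ⟨s, u0, ∅, ∅, ?_⟩
      refine ⟨hO, ?_, ?_, ?_, ?_, ?_, ?_⟩
      · simp
      · rw [Finset.insert_erase hu0]
      · intro u' _ _
        exact Finset.Subset.refl _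
      · simp
      · intro C hC
        simp at hC
      · intro C hC
        simp at hC
    | succ n ih =>
      obtain ⟨t, v, Cs, Cl, hI⟩ := ih
      exact chn_step h1 hmv hloc hinc hI (key n t v Cs Cl hI)
  obtain ⟨t, v, Cs, Cl, hI⟩ := chain (Fintype.card (Finset E) + 1)
  have h3 := hI.hn
  have h4 : Cs.card ≤ Fintype.card (Finset E) := Finset.card_le_univ _
  omega

end Pool.Agent.W209.CF
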