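import Pool.Agent.W209.CF.Stm

/-!
Basic lemmas on `cnt`, `dg`, `opp`.
-/

namespace Pool.Agent.W209.CF

open Finset

theorem opp_zero : opp 0 = 0 := by decide
theorem opp_one : opp 1 = 2 := by decide
theorem opp_two : opp 2 = 1 := by decide
theorem opp_opp (i : Fin 3) : opp (opp i) = i := by revert i; decide
theorem opp_ne_zero {i : Fin 3} (h : i ≠ 0) : opp i ≠ 0 := by revert i; decide
theorem opp_eq_zero {i : Fin 3} : opp i = 0 ↔ i = 0 := by revert i; decide
theorem opp_ne_self {i : Fin 3} (h : i ≠ 0) : opp i ≠ i := by revert i; decide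
theorem opp_inj {i j : Fin 3} : opp i = opp j ↔ i = j := by revert i j; decide
theorem eq_or_opp {i j : Fin 3} (hi : i ≠ 0) (hj : j ≠ 0) : j = i ∨ j = opp i := by
  revert i j; decide
theorem ne_iff_opp {i j : Fin 3} (hi : i ≠ 0) (hj : j ≠ 0) : j ≠ i ↔ j = opp i := by
  revert i j; decide
theorem eq_one_or_two {i : Fin 3} (h : i ≠ 0) : i = 1 ∨ i = 2 := by revert i; decide

section
variable {V E : Type} [Fintype V] [DecidableEq V] [Fintype E] [DecidableEq E]
variable {inc : E → Finset V}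

theorem mem_cntset {s : E → Fin 3} {i : Fin 3} {v : V} {e : E} :
    e ∈ univ.filter (fun e => v ∈ inc e ∧ s e = i) ↔ v ∈ inc e ∧ s e = i := by simp

theorem cnt_eq_zero {s : E → Fin 3} {i : Fin 3} {v : V} :
    cnt inc s i v = 0 ↔ ∀ e, v ∈ inc e → s e ≠ i := by
  unfold cnt
  rw [Finset.card_eq_zero, Finset.filter_eq_empty_iff]
  constructor
  · intro h e he hs
    exact h (mem_univ e) ⟨he, hs⟩
  · rintro h e - ⟨he, hs⟩
    exact h e he hs

theorem cnt_pos {s : E → Fin 3} {i : Fin 3} {v : V} :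
    1 ≤ cnt inc s i v ↔ ∃ e, v ∈ inc e ∧ s e = i := by
  rw [Nat.one_le_iff_ne_zero, Ne, cnt_eq_zero]
  push Not
  rfl

theorem cnt_eq_one {s : E → Fin 3} {i : Fin 3} {v : V} :
    cnt inc s i v = 1 ↔ ∃ e, v ∈ inc e ∧ s e = i ∧ ∀ e', v ∈ inc e' → s e' = i → e' = e := by
  unfold cnt
  rw [Finset.card_eq_one]
  constructor
  · rintro ⟨e, he⟩
    refine ⟨e, ?_⟩
    have h1 : e ∈ univ.filter (fun e => v ∈ inc e ∧ s e = i) := by rw [he]; simp
    rw [mem_cntset] at h1
    refine ⟨h1.1, h1.2, ?_⟩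
    intro e' h2 h3
    have h4 : e' ∈ univ.filter (fun e => v ∈ inc e ∧ s e = i) := mem_cntset.2 ⟨h2, h3⟩
    rw [he] at h4
    simpa using h4
  · rintro ⟨e, h1, h2, h3⟩
    refine ⟨e, ?_⟩
    ext e'
    rw [mem_cntset, mem_singleton]
    constructor
    · rintro ⟨h4, h5⟩
      exact h3 e' h4 h5
    · rintro rfl
      exact ⟨h1, h2⟩

/-- two coloured hyperedges of the same colour at a vertex are equal when `cnt ≤ 1` -/
theorem cnt_le_one_unique {s : E → Fin 3} {i : Fin 3} {v : V} (h : cnt inc s i v ≤ 1)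
    {e e' : E} (he : v ∈ inc e) (hs : s e = i) (he' : v ∈ inc e') (hs' : s e' = i) : e = e' :=
  Finset.card_le_one.1 h e (mem_cntset.2 ⟨he, hs⟩) e' (mem_cntset.2 ⟨he', hs'⟩)

theorem dg_eq_zero {s : E → Fin 3} {v : V} :
    dg inc s v = 0 ↔ ∀ e, v ∈ inc e → s e = 0 := by
  unfold dg
  rw [Nat.add_eq_zero_iff, cnt_eq_zero, cnt_eq_zero]
  constructor
  · rintro ⟨h1, h2⟩ e he
    by_contra h
    rcases eq_one_or_two h with h3 | h3
    · exact h1 e he h3
    · exact h2 e he h3
  · intro h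
    refine ⟨fun e he => ?_, fun e he => ?_⟩
    · rw [h e he]; decide
    · rw [h e he]; decide

/-- `dg` is the number of coloured hyperedges at `v` -/
theorem dg_eq_card (s : E → Fin 3) (v : V) :
    dg inc s v = (univ.filter (fun e => v ∈ inc e ∧ s e ≠ 0)).card := by
  unfold dg cnt
  rw [← Finset.card_union_of_disjoint]
  · congr 1
    ext e
    simp only [mem_union, mem_filter, mem_univ, true_and]
    constructor
    · rintro (⟨h1, h2⟩ | ⟨h1, h2⟩)
      · exact ⟨h1, by rw [h2]; decide⟩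
      · exact ⟨h1, by rw [h2]; decide⟩
    · rintro ⟨h1, h2⟩
      rcases eq_one_or_two h2 with h3 | h3
      · exact Or.inl ⟨h1, h3⟩
      · exact Or.inr ⟨h1, h3⟩
  · rw [Finset.disjoint_left]
    intro e h1 h2
    rw [mem_cntset] at h1 h2
    rw [h1.2] at h2
    exact absurd h2.2 (by decide)

theorem dg_pos {s : E → Fin 3} {v : V} :
    dg inc s v ≠ 0 ↔ ∃ e, v ∈ inc e ∧ s e ≠ 0 := by
  rw [Ne, dg_eq_zero]
  push Not
  rfl

/-- if `c` is coloured exactly on `K` then `dg = kd` -/
theorem dg_eq_kd {c : E → Fin 3} {K : Finset E} (h : ∀ e, c e ≠ 0 ↔ e ∈ K) (v : V) :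
    dg inc c v = kd inc K v := by
  rw [dg_eq_card]
  unfold kd
  congr 1
  ext e
  simp only [mem_filter, mem_univ, true_and, h e]
  tauto

theorem cnt_congr {s s' : E → Fin 3} {v : V} (h : ∀ e, v ∈ inc e → s e = s' e) (i : Fin 3) :
    cnt inc s i v = cnt inc s' i v := by
  unfold cnt
  congr 1
  ext e
  rw [mem_cntset, mem_cntset]
  constructor
  · rintro ⟨h1, h2⟩
    exact ⟨h1, by rw [← h e h1, h2]⟩
  · rintro ⟨h1, h2⟩
    exact ⟨h1, by rw [h e h1, h2]⟩

theorem dg_congr {s s' : E → Fin 3} {v : V} (h : ∀ e, v ∈ inc e → s e = s' e) :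
    dg inc s v = dg inc s' v := by
  unfold dg
  rw [cnt_congr h, cnt_congr h]

/-- use `c1` where it is coloured, otherwise `c2` -/
def join (c1 c2 : E → Fin 3) : E → Fin 3 := fun e => if c1 e = 0 then c2 e else c1 e

theorem cnt_join {c1 c2 : E → Fin 3} {v : V} (h : ∀ e, v ∈ inc e → c1 e = 0 ∨ c2 e = 0)
    {i : Fin 3} (hi : i ≠ 0) : cnt inc (join c1 c2) i v = cnt inc c1 i v + cnt inc c2 i v := by
  unfold cnt
  rw [← Finset.card_union_of_disjoint]
  · congr 1
    ext e
    rw [mem_union, mem_cntset, mem_cntset, mem_cntset]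
    constructor
    · rintro ⟨h1, h2⟩
      by_cases h3 : c1 e = 0
      · rw [join, if_pos h3] at h2
        exact Or.inr ⟨h1, h2⟩
      · rw [join, if_neg h3] at h2
        exact Or.inl ⟨h1, h2⟩
    · rintro (⟨h1, h2⟩ | ⟨h1, h2⟩)
      · refine ⟨h1, ?_⟩
        rw [join, if_neg (by rw [h2]; exact hi), h2]
      · refine ⟨h1, ?_⟩
        rcases h e h1 with h3 | h3
        · rw [join, if_pos h3, h2]
        · rw [h3] at h2
          exact absurd h2.symm hi
  · rw [Finset.disjoint_left]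
    intro e h1 h2
    rw [mem_cntset] at h1 h2
    rcases h e h1.1 with h3 | h3
    · rw [h3] at h1
      exact hi h1.2.symm
    · rw [h3] at h2
      exact hi h2.2.symm

theorem dg_join {c1 c2 : E → Fin 3} {v : V} (h : ∀ e, v ∈ inc e → c1 e = 0 ∨ c2 e = 0) :
    dg inc (join c1 c2) v = dg inc c1 v + dg inc c2 v := by
  unfold dg
  rw [cnt_join h (by decide), cnt_join h (by decide)]
  omega

/-- colouring an uncoloured hyperedge -/
theorem cnt_update {c : E → Fin 3} {f : E} (hf : c f = 0) (γ : Fin 3) {i : Fin 3} (hi : i ≠ 0)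
    (v : V) : cnt inc (Function.update c f γ) i v =
      cnt inc c i v + (if v ∈ inc f ∧ γ = i then 1 else 0) := by
  unfold cnt
  by_cases h : v ∈ inc f ∧ γ = i
  · rw [if_pos h]
    have h0 : f ∉ univ.filter (fun e => v ∈ inc e ∧ c e = i) := by
      rw [mem_cntset]
      rintro ⟨-, h2⟩
      rw [hf] at h2
      exact hi h2.symm
    rw [← Finset.card_insert_of_notMem h0]
    congr 1
    ext e
    simp only [mem_insert, mem_filter, mem_univ, true_and]
    by_cases he : e = f
    · subst he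
      simp [h.1, h.2]
    · rw [Function.update_of_ne he]
      simp [he]
  · rw [if_neg h, Nat.add_zero]
    congr 1
    ext e
    simp only [mem_filter, mem_univ, true_and]
    by_cases he : e = f
    · subst he
      rw [Function.update_self]
      constructor
      · intro h1
        exact absurd h1 h
      · rintro ⟨-, h2⟩
        rw [hf] at h2
        exact absurd h2.symm hi
    · rw [Function.update_of_ne he]

theorem dg_update {c : E → Fin 3} {f : E} (hf : c f = 0) {γ : Fin 3} (hγ : γ ≠ 0)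
    (v : V) : dg inc (Function.update c f γ) v =
      dg inc c v + (if v ∈ inc f then 1 else 0) := by
  unfold dg
  rw [cnt_update hf γ (by decide), cnt_update hf γ (by decide)]
  rcases eq_one_or_two hγ with rfl | rfl
  · by_cases h : v ∈ inc f <;> simp [h] <;> omega
  · by_cases h : v ∈ inc f <;> simp [h] <;> omega

/-- uncolouring a hyperedge -/
theorem cnt_erase {c : E → Fin 3} {f : E} {i : Fin 3} (hi : i ≠ 0)
    (v : V) : cnt inc c i v =
      cnt inc (Function.update c f 0) i v + (if v ∈ inc f ∧ c f = i then 1 else 0) := by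
  have h := cnt_update (inc := inc) (c := Function.update c f 0) (f := f) (by simp) (c f) hi v
  rw [Function.update_idem, Function.update_eq_self] at h
  exact h

theorem dg_erase {c : E → Fin 3} {f : E} (hf : c f ≠ 0) (v : V) : dg inc c v =
      dg inc (Function.update c f 0) v + (if v ∈ inc f then 1 else 0) := by
  have h := dg_update (inc := inc) (c := Function.update c f 0) (f := f) (by simp) hf v
  rw [Function.update_idem, Function.update_eq_self] at h
  exact h

/-- exchanging the two colours -/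
theorem cnt_opp (c : E → Fin 3) (i : Fin 3) (v : V) :
    cnt inc (fun e => opp (c e)) i v = cnt inc c (opp i) v := by
  unfold cnt
  congr 1
  ext e
  rw [mem_cntset, mem_cntset]
  constructor
  · rintro ⟨h1, h2⟩
    exact ⟨h1, by rw [← h2, opp_opp]⟩
  · rintro ⟨h1, h2⟩
    exact ⟨h1, by rw [h2, opp_opp]⟩

/-- exchanging the two colours on a set `C` closed under adjacency -/
theorem cnt_swap {s : E → Fin 3} {C : Finset E}
    (hC : ∀ e ∈ C, ∀ e', Adj inc s e e' → e' ∈ C) (v : V) :
    (∀ i, i ≠ 0 → cnt inc (fun e => if e ∈ C then opp (s e) else s e) i v = cnt inc s i v) ∨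
    (∀ i, i ≠ 0 →
      cnt inc (fun e => if e ∈ C then opp (s e) else s e) i v = cnt inc s (opp i) v) := by
  by_cases h : ∃ e ∈ C, v ∈ inc e ∧ s e ≠ 0
  · obtain ⟨e0, h0, h1, h2⟩ := h
    right
    intro i hi
    rw [← cnt_opp s i v]
    unfold cnt
    congr 1
    ext e
    rw [mem_cntset, mem_cntset]
    by_cases he : v ∈ inc e ∧ s e ≠ 0
    · have : e ∈ C := hC e0 h0 e ⟨h2, he.2, v, h1, he.1⟩
      simp [this]
    · constructor
      · rintro ⟨h3, h4⟩
        have h5 : s e = 0 := by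
          by_contra h5
          exact he ⟨h3, h5⟩
        refine ⟨h3, ?_⟩
        rw [h5] at h4 ⊢
        by_cases h6 : e ∈ C
        · rwa [if_pos h6] at h4
        · rw [if_neg h6] at h4
          rw [opp_zero, h4]
      · rintro ⟨h3, h4⟩
        have h5 : s e = 0 := by
          by_contra h5
          exact he ⟨h3, h5⟩
        refine ⟨h3, ?_⟩
        simp only [h5] at h4 ⊢
        rw [opp_zero] at h4
        exact absurd h4.symm hi
  · left
    intro i hi
    push Not at h
    unfold cnt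
    congr 1
    ext e
    rw [mem_cntset, mem_cntset]
    constructor
    · rintro ⟨h3, h4⟩
      refine ⟨h3, ?_⟩
      by_cases h5 : e ∈ C
      · rw [if_pos h5, h e h5 h3, opp_zero] at h4
        exact absurd h4.symm hi
      · rwa [if_neg h5] at h4
    · rintro ⟨h3, h4⟩
      refine ⟨h3, ?_⟩
      by_cases h5 : e ∈ C
      · rw [h e h5 h3] at h4
        exact absurd h4.symm hi
      · rwa [if_neg h5]

theorem mem_holes {s : E → Fin 3} {v : V} : v ∈ holes inc s ↔ dg inc s v = 0 := by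
  simp [holes]

theorem mem_VK {K : Finset E} {v : V} : v ∈ VK inc K ↔ ∃ e ∈ K, v ∈ inc e := by
  simp [VK]

theorem kd_pos {K : Finset E} {v : V} : kd inc K v ≠ 0 ↔ v ∈ VK inc K := by
  rw [mem_VK, Ne, kd, Finset.card_eq_zero, Finset.filter_eq_empty_iff]
  push Not
  rfl

theorem mem_pri {K : Finset E} {v : V} : v ∈ pri inc K ↔ kd inc K v = 1 := by
  simp [pri]

theorem mem_comp {s : E → Fin 3} {h e : E} : e ∈ comp inc s h ↔
    s e ≠ 0 ∧ ∃ e', s e' ≠ 0 ∧ (∃ v, v ∈ inc h ∧ v ∈ inc e') ∧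
      Relation.ReflTransGen (Adj inc s) e' e := by
  classical
  simp [comp]

/-- components are closed under adjacency -/
theorem comp_closed {s : E → Fin 3} {h e e' : E} (he : e ∈ comp inc s h)
    (ha : Adj inc s e e') : e' ∈ comp inc s h := by
  rw [mem_comp] at he ⊢
  obtain ⟨-, f, h1, h2, h3⟩ := he
  exact ⟨ha.2.1, f, h1, h2, h3.tail ha⟩

theorem comp_touch {s : E → Fin 3} {h e : E} (hs : s e ≠ 0) {v : V} (h1 : v ∈ inc h)
    (h2 : v ∈ inc e) : e ∈ comp inc s h :=
  mem_comp.2 ⟨hs, e, hs, ⟨v, h1, h2⟩, Relation.ReflTransGen.refl⟩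

theorem Adj.symm {s : E → Fin 3} {e e' : E} (h : Adj inc s e e') : Adj inc s e' e := by
  obtain ⟨h1, h2, v, h3, h4⟩ := h
  exact ⟨h2, h1, v, h4, h3⟩

/-- coloured hyperedges outside `KK s h` avoid its vertices -/
theorem KK_iso {s : E → Fin 3} {h e : E} (hs : s e ≠ 0) (he : e ∉ KK inc s h) :
    Disjoint (inc e) (VK inc (KK inc s h)) := by
  rw [Finset.disjoint_left]
  intro v h1 h2
  rw [mem_VK] at h2
  obtain ⟨e', h3, h4⟩ := h2
  apply he
  rw [KK, mem_insert] at h3 ⊢
  right
  rcases h3 with rfl | h3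
  · exact comp_touch hs h4 h1
  · exact comp_closed h3 ⟨(mem_comp.1 h3).1, hs, v, h4, h1⟩

theorem St_dg_le {s : E → Fin 3} (hs : St inc s) (v : V) : dg inc s v ≤ 2 := by
  have := hs v
  unfold dg
  omega

theorem St_two {s : E → Fin 3} (hs : St inc s) {v : V} (h : dg inc s v = 2) :
    cnt inc s 1 v = 1 ∧ cnt inc s 2 v = 1 := by
  have := hs v
  unfold dg at h
  omega

/-- in a state adjacent distinct hyperedges have different colours -/
theorem St_ne {s : E → Fin 3} (hs : St inc s) {e e' : E} (h : Adj inc s e e') (hne : e ≠ e') :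
    s e ≠ s e' := by
  intro h5
  obtain ⟨h1, h2, v, h3, h4⟩ := h
  apply hne
  rcases eq_one_or_two h1 with h6 | h6
  · exact cnt_le_one_unique (hs v).1 h3 h6 h4 (by rw [← h5, h6])
  · exact cnt_le_one_unique (hs v).2 h3 h6 h4 (by rw [← h5, h6])

end

end Pool.Agent.W209.CF
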