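import Pool.Agent.W209.CF.Stm
import Pool.Agent.W209.CF.Basic

/-!
The data for the assembly, from an optimal state.
-/

namespace Pool.Agent.W209.CF

open Finset

section
variable {V E : Type} [Fintype V] [DecidableEq V] [Fintype E] [DecidableEq E]
variable {inc : E → Finset V}

theorem exists_ord (s : E → Fin 3) (X : Finset E) : ∃ ord : V → ℕ, Function.Injective ord ∧
    (∀ v v', dg inc s v = 1 → dg inc s v' = 2 → ord v < ord v') ∧
    (∀ v v', dg inc s v = 2 → dg inc s v' = 2 → (∃ x ∈ X, v ∈ inc x) →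
      (¬ ∃ x ∈ X, v' ∈ inc x) → ord v < ord v') := by
  classical
  let cls : V → ℕ := fun v => if dg inc s v ≤ 1 then 0 else if ∃ x ∈ X, v ∈ inc x then 1 else 2
  let idx : V → ℕ := fun v => (Fintype.equivFin V v).val
  have hidx : ∀ v, idx v < Fintype.card V := fun v => (Fintype.equivFin V v).2
  have hlt : ∀ v v', cls v < cls v' →
      cls v * Fintype.card V + idx v < cls v' * Fintype.card V + idx v' := by
    intro v v' h
    have h1 := hidx v
    have h2 : (cls v + 1) * Fintype.card V ≤ cls v' * Fintype.card V :=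
      Nat.mul_le_mul_right _ h
    have h3 : (cls v + 1) * Fintype.card V = cls v * Fintype.card V + Fintype.card V := by ring
    omega
  refine ⟨fun v => cls v * Fintype.card V + idx v, ?_, ?_, ?_⟩
  · intro v v' h
    simp only at h
    rcases lt_trichotomy (cls v) (cls v') with h1 | h1 | h1
    · have := hlt v v' h1
      omega
    · rw [h1] at h
      have h2 : idx v = idx v' := by omega
      exact (Fintype.equivFin V).injective (Fin.ext h2)
    · have := hlt v' v h1
      omega
  · intro v v' h1 h2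
    apply hlt
    have h3 : cls v = 0 := by
      show (if dg inc s v ≤ 1 then 0 else if ∃ x ∈ X, v ∈ inc x then 1 else 2) = 0
      rw [if_pos (by omega)]
    have h4 : 0 < cls v' := by
      show 0 < (if dg inc s v' ≤ 1 then 0 else if ∃ x ∈ X, v' ∈ inc x then 1 else 2)
      rw [if_neg (by omega)]
      split_ifs <;> omega
    omega
  · intro v v' h1 h2 h3 h4
    apply hlt
    have h5 : cls v = 1 := by
      show (if dg inc s v ≤ 1 then 0 else if ∃ x ∈ X, v ∈ inc x then 1 else 2) = 1
      rw [if_neg (by omega), if_pos h3]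
    have h6 : cls v' = 2 := by
      show (if dg inc s v' ≤ 1 then 0 else if ∃ x ∈ X, v' ∈ inc x then 1 else 2) = 2
      rw [if_neg (by omega), if_neg h4]
    omega

theorem exists_third {A : Finset V} (h : A.card = 3) {a b : V} (ha : a ∈ A) (hb : b ∈ A)
    (hab : a ≠ b) : ∃ c, A = {a, b, c} ∧ a ≠ c ∧ b ≠ c := by
  have h1 : ((A.erase a).erase b).card = 1 := by
    rw [Finset.card_erase_of_mem (Finset.mem_erase.2 ⟨hab.symm, hb⟩),
      Finset.card_erase_of_mem ha, h]
  obtain ⟨c, hc⟩ := Finset.card_eq_one.1 h1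
  have h2 : c ∈ (A.erase a).erase b := by rw [hc]; simp
  rw [mem_erase, mem_erase] at h2
  refine ⟨c, ?_, h2.2.1.symm, h2.1.symm⟩
  ext x
  constructor
  · intro hx
    rw [mem_insert, mem_insert, mem_singleton]
    by_cases h3 : x = a
    · exact Or.inl h3
    · by_cases h4 : x = b
      · exact Or.inr (Or.inl h4)
      · right; right
        have : x ∈ (A.erase a).erase b := by
          rw [mem_erase, mem_erase]
          exact ⟨h4, h3, hx⟩
        rw [hc, mem_singleton] at this
        exact this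
  · intro hx
    rw [mem_insert, mem_insert, mem_singleton] at hx
    rcases hx with rfl | rfl | rfl
    · exact ha
    · exact hb
    · exact h2.2.2

end

theorem data : S_C → S_hall → S_F1 → S_F2 → S_F7 → S_oddK → S_F8 → S_F8p → S_F9 → S_F10 →
    S_F11 → S_dis → S_data := by
  intro pC phall pF1 pF2 pF7 poddK pF8 pF8p _ pF10 pF11 pdis
  intro V E _ _ _ _ inc r hr h3 hreg
  classical
  obtain ⟨s, X, hO, hw⟩ := pC V E inc h3
  have hO2 : Opt2 inc s := hO.1
  have hSt : St inc s := hO2.1.1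
  have hTwo : TwoH inc s X := hO.2.1
  obtain ⟨ord, hoi, ho1, hoZ⟩ := exists_ord (inc := inc) s X
  obtain ⟨ψ, g, hg0, hg1, hg2, hg3⟩ := phall V E inc r hr h3 hreg s X hO hw ord hoi
  -- basic facts on L
  have hL0 : ∀ u ∈ LL inc s X, dg inc s u = 0 := by
    intro u hu
    rw [LL, mem_filter, mem_holes] at hu
    exact hu.1
  have hLX : ∀ u ∈ LL inc s X, ∀ x ∈ X, u ∉ inc x := by
    intro u hu
    rw [LL, mem_filter, mem_holes] at hu
    exact hu.2
  let inU : V → Prop := fun u => ∃ D, ψ u = Sum.inr (D, false) ∨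
    (ψ u = Sum.inr (D, true) ∧ ¬ ∃ u' ∈ LL inc s X, ψ u' = Sum.inr (D, false))
  let U : Finset V := (LL inc s X).filter inU
  let T : Finset V := (LL inc s X).filter (fun u => ¬ inU u)
  have hUL : ∀ u ∈ U, u ∈ LL inc s X := fun u hu => (mem_filter.1 hu).1
  have hTL : ∀ u ∈ T, u ∈ LL inc s X := fun u hu => (mem_filter.1 hu).1
  have hUT' : ∀ u ∈ U, ∀ w ∈ T, w ≠ u := by
    intro u hu w hw h
    subst h
    exact (mem_filter.1 hw).2 (mem_filter.1 hu).2
  -- facts on U
  have hUe : ∀ u ∈ U, Entry inc s u (g u) ∧ ¬ weakK inc (KK inc s (g u)) ∧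
      ∃ b, ψ u = Sum.inr (comp inc s (g u), b) := by
    intro u hu
    obtain ⟨D, h | ⟨h, -⟩⟩ := (mem_filter.1 hu).2
    · obtain ⟨h1, h2, h4⟩ := hg2 u (hUL u hu) D false h
      exact ⟨h1, h2, false, by rw [h, h4]⟩
    · obtain ⟨h1, h2, h4⟩ := hg2 u (hUL u hu) D true h
      exact ⟨h1, h2, true, by rw [h, h4]⟩
  have hUc : ∀ u ∈ U, ∀ u' ∈ U, u ≠ u' → comp inc s (g u) ≠ comp inc s (g u') := by
    intro u hu u' hu' hne hc
    obtain ⟨D, h⟩ := (mem_filter.1 hu).2
    obtain ⟨D', h'⟩ := (mem_filter.1 hu').2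
    rcases h with h | ⟨h, hn⟩
    · rcases h' with h' | ⟨h', hn'⟩
      · have e1 := (hg2 u (hUL u hu) D false h).2.2
        have e2 := (hg2 u' (hUL u' hu') D' false h').2.2
        apply hne
        apply hg3 u (hUL u hu) u' (hUL u' hu')
        rw [h, h', e1, e2, hc]
      · have e1 := (hg2 u (hUL u hu) D false h).2.2
        have e2 := (hg2 u' (hUL u' hu') D' true h').2.2
        apply hn'
        refine ⟨u, hUL u hu, ?_⟩
        rw [h, e1, e2, hc]
    · rcases h' with h' | ⟨h', hn'⟩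
      · have e1 := (hg2 u (hUL u hu) D true h).2.2
        have e2 := (hg2 u' (hUL u' hu') D' false h').2.2
        apply hn
        refine ⟨u', hUL u' hu', ?_⟩
        rw [h', e1, e2, hc]
      · have e1 := (hg2 u (hUL u hu) D true h).2.2
        have e2 := (hg2 u' (hUL u' hu') D' true h').2.2
        apply hne
        apply hg3 u (hUL u hu) u' (hUL u' hu')
        rw [h, h', e1, e2, hc]
  -- the hyperedges f
  have hfex : ∀ u : V, ∃ f : E, u ∈ U → f ∉ KK inc s (g u) ∧
      2 ≤ (inc f ∩ VK inc (KK inc s (g u))).card ∧ ¬ inc f ⊆ pri inc (KK inc s (g u)) := by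
    intro u
    by_cases hu : u ∈ U
    · have h := (hUe u hu).2.1
      unfold weakK at h
      push Not at h
      obtain ⟨f, h1, h2, h4⟩ := h
      exact ⟨f, fun _ => ⟨h1, h2, h4⟩⟩
    · exact ⟨g u, fun h => absurd h hu⟩
  choose f hf using hfex
  -- slots
  have hQ : ∀ w : V, ∃ p : V × V, w ∈ T → (inc (g w) = {w, p.1, p.2} ∧ w ≠ p.1 ∧ w ≠ p.2 ∧
      p.1 ≠ p.2) ∧ (ψ w = Sum.inl p.1 ∨ (ord p.2 < ord p.1 ∧ ∃ D, ψ w = Sum.inr (D, true) ∧
        ∃ u' ∈ LL inc s X, ψ u' = Sum.inr (D, false))) := by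
    intro w
    by_cases hwT : w ∈ T
    · have hwL := hTL w hwT
      have hwg := hg0 w hwL
      rcases hψ : ψ w with v | ⟨D, b⟩
      · obtain ⟨h1, h2, -⟩ := hg1 w hwL v hψ
        have hne : w ≠ v := by
          intro h
          rw [← h, hL0 w hwL] at h2
          omega
        obtain ⟨t, h4, h5, h6⟩ := exists_third (h3 (g w)) hwg h1 hne
        exact ⟨(v, t), fun _ => ⟨⟨h4, hne, h5, h6⟩, Or.inl rfl⟩⟩
      · cases b with
        | false => exact absurd ⟨D, Or.inl hψ⟩ (mem_filter.1 hwT).2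
        | true =>
          have hex : ∃ u' ∈ LL inc s X, ψ u' = Sum.inr (D, false) := by
            by_contra hcon
            exact (mem_filter.1 hwT).2 ⟨D, Or.inr ⟨hψ, hcon⟩⟩
          have hc2 : ((inc (g w)).erase w).card = 2 := by
            rw [Finset.card_erase_of_mem hwg, h3]
          obtain ⟨a, b, hab, hab2⟩ := Finset.card_eq_two.1 hc2
          have ha : a ∈ (inc (g w)).erase w := by rw [hab2]; simp
          have hb : b ∈ (inc (g w)).erase w := by rw [hab2]; simp
          rw [mem_erase] at ha hb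
          have hset : inc (g w) = {w, a, b} := by
            rw [← Finset.insert_erase hwg, hab2]
          have hset' : inc (g w) = {w, b, a} := by
            rw [hset, Finset.pair_comm a b]
          have hone : ord a ≠ ord b := fun h => hab (hoi h)
          rcases lt_or_gt_of_ne hone with h | h
          · exact ⟨(b, a), fun _ => ⟨⟨hset', hb.1.symm, ha.1.symm, hab.symm⟩,
              Or.inr ⟨h, D, rfl, hex⟩⟩⟩
          · exact ⟨(a, b), fun _ => ⟨⟨hset, ha.1.symm, hb.1.symm, hab⟩,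
              Or.inr ⟨h, D, rfl, hex⟩⟩⟩
    · exact ⟨(w, w), fun h => absurd h hwT⟩
  choose p hp using hQ
  have hσm : ∀ w ∈ T, (p w).1 ∈ inc (g w) := by
    intro w hw
    rw [(hp w hw).1.1]
    simp
  have hτm : ∀ w ∈ T, (p w).2 ∈ inc (g w) := by
    intro w hw
    rw [(hp w hw).1.1]
    simp
  -- two kinds of tokens
  have hkind : ∀ w ∈ T, (ψ w = Sum.inl (p w).1 ∧ dg inc s (p w).1 = 2 ∧
      ∀ y ∈ inc (g w), dg inc s y = 2 → ord y ≤ ord (p w).1) ∨
      (ψ w = Sum.inr (comp inc s (g w), true) ∧ Entry inc s w (g w) ∧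
        dg inc s (p w).1 = 1 ∧ dg inc s (p w).2 = 1 ∧ ord (p w).2 < ord (p w).1 ∧
        ∃ u ∈ U, comp inc s (g u) = comp inc s (g w)) := by
    intro w hw
    have hwL := hTL w hw
    obtain ⟨⟨h1, h2, h4, h5⟩, h6⟩ := hp w hw
    rcases h6 with h6 | ⟨h6, D, h7, u', h8, h9⟩
    · obtain ⟨-, h7, h8⟩ := hg1 w hwL _ h6
      exact Or.inl ⟨h6, h7, h8⟩
    · right
      obtain ⟨h10, -, h12⟩ := hg2 w hwL D true h7
      obtain ⟨-, -, h13⟩ := hg2 u' h8 D false h9
      refine ⟨by rw [h7, h12], h10, h10.2.2 _ (hσm w hw) h2.symm, h10.2.2 _ (hτm w hw) h4.symm,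
        h6, u', mem_filter.2 ⟨h8, D, Or.inl h9⟩, by rw [← h13, ← h12]⟩
  have hKh' : ∀ u ∈ U, ∀ v ∈ VK inc (KK inc s (g u)), v ≠ u → dg inc s v ≠ 0 := by
    intro u hu v hv hne
    rw [mem_VK] at hv
    obtain ⟨e, he, hve⟩ := hv
    rw [KK, mem_insert] at he
    rcases he with rfl | he
    · have := (hUe u hu).1.2.2 v hve hne
      omega
    · rw [dg_pos]
      exact ⟨e, hve, (mem_comp.1 he).1⟩
  have hX' : ∀ x ∈ X, ∃ w w' z, inc x = {w, w', z} ∧ w ≠ w' ∧ dg inc s w = 0 ∧
      dg inc s w' = 0 ∧ dg inc s z = 2 ∧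
      ∀ e, s e ≠ 0 → z ∈ inc e → ∀ v ∈ inc e, v ≠ z → dg inc s v = 1 := by
    intro x hx
    have h1 := hTwo.1 x hx
    obtain ⟨w, hw1, w', hw2, hne⟩ := Finset.one_lt_card.1 (by omega : 1 < (inc x ∩ holes inc s).card)
    rw [mem_inter, mem_holes] at hw1 hw2
    obtain ⟨z, h4, -, -, h5, h6⟩ := pF2 V E inc h3 s hO2 x w hw1.1 w' hw2.1 hne hw1.2 hw2.2
    exact ⟨w, w', z, h4, hne, hw1.2, hw2.2, h5, h6⟩
  have hent2 : ∀ w ∈ T, dg inc s (p w).1 = 1 → Entry inc s w (g w) ∧
      ψ w = Sum.inr (comp inc s (g w), true) := by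
    intro w hw h
    rcases hkind w hw with h1 | h1
    · have := h1.2.1
      omega
    · exact ⟨h1.2.1, h1.1⟩
  refine ⟨s, ⟨{
    X := X
    U := U
    T := T
    K := fun u => KK inc s (g u)
    f := f
    g := g
    σ := fun w => (p w).1
    τ := fun w => (p w).2
    ord := ord
    hs := hSt
    hX := hX'
    hXd := ?_
    hU0 := fun u hu => hL0 u (hUL u hu)
    hT0 := fun u hu => hL0 u (hTL u hu)
    hcov := ?_
    hUT := ?_
    hUX := ?_
    hKodd := fun u hu => (poddK V E inc h3 s hO2 u (g u) (hUe u hu).1).1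
    hKu := ?_
    hKh := hKh'
    hK2 := ?_
    hKiso := fun u _ e he1 he2 => KK_iso he1 he2
    hKX := ?_
    hKd := ?_
    hf := fun u hu => hf u hu
    hg := fun w hw => (hp w hw).1
    hσ := ?_
    hτ := ?_
    hcyc := ?_
    hone := ?_
    hslot := ?_
    hC := ?_
    hord := ?_
    hord1 := ho1
    hordZ := hoZ
    hordi := hoi }⟩⟩
  · -- hXd
    intro x hx y hy hxy v hvx hvy
    by_contra hcon
    obtain ⟨w, w', z, h1, h2, h4, h5, h6, -⟩ := hX' x hx
    have hv0 : dg inc s v = 0 := by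
      rw [h1, mem_insert, mem_insert, mem_singleton] at hvx
      rcases hvx with rfl | rfl | rfl
      · exact h4
      · exact h5
      · exact absurd h6 hcon
    have hd := hTwo.2 x hx y hy hxy
    rw [Finset.disjoint_left] at hd
    exact hd (mem_inter.2 ⟨hvx, mem_holes.2 hv0⟩) (mem_inter.2 ⟨hvy, mem_holes.2 hv0⟩)
  · -- hcov
    intro v hv
    by_cases h : ∃ x ∈ X, v ∈ inc x
    · exact Or.inr (Or.inr h)
    · have hvL : v ∈ LL inc s X := by
        rw [LL, mem_filter, mem_holes]
        refine ⟨hv, ?_⟩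
        intro x hx hvx
        exact h ⟨x, hx, hvx⟩
      by_cases h2 : inU v
      · exact Or.inl (mem_filter.2 ⟨hvL, h2⟩)
      · exact Or.inr (Or.inl (mem_filter.2 ⟨hvL, h2⟩))
  · -- hUT
    rw [Finset.disjoint_left]
    intro v h1 h2
    exact hUT' v h1 v h2 rfl
  · -- hUX
    intro v hv x hx
    rcases hv with hv | hv
    · exact hLX v (hUL v hv) x hx
    · exact hLX v (hTL v hv) x hx
  · -- hKu
    intro u hu
    rw [mem_VK]
    exact ⟨g u, mem_insert_self _ _, hg0 u (hUL u hu)⟩
  · -- hK2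
    intro u hu v hv h2
    have h := (poddK V E inc h3 s hO2 u (g u) (hUe u hu).1).2 v hv
    have hn : v ∉ inc (g u) := by
      intro hvg
      by_cases hvu : v = u
      · subst hvu
        have := (hUe v hu).1.2.1
        omega
      · have := (hUe u hu).1.2.2 v hvg hvu
        omega
    rw [if_neg hn] at h
    omega
  · -- hKX
    intro u hu x hx
    obtain ⟨w, w', z, h1, h2, h4, h5, h6, -⟩ := hX' x hx
    have huw : u ≠ w := by
      intro h
      apply hLX u (hUL u hu) x hx
      rw [h1, h]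
      simp
    have huw' : u ≠ w' := by
      intro h
      apply hLX u (hUL u hu) x hx
      rw [h1, h]
      simp
    have hzw : z ≠ w := by
      intro h
      rw [h] at h6
      omega
    have hzw' : z ≠ w' := by
      intro h
      rw [h] at h6
      omega
    rw [Finset.disjoint_left]
    intro v hv1 hv2
    rw [h1, mem_insert, mem_insert, mem_singleton] at hv1
    rcases hv1 with rfl | rfl | rfl
    · exact hKh' u hu v hv2 huw.symm h4
    · exact hKh' u hu v hv2 huw'.symm h5
    · exact pF7 V E inc h3 s hO2 u (g u) (hUe u hu).1 x w w' v h1 h2 hzw hzw' h4 h5 huw huw' hv2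
  · -- hKd
    intro u hu u' hu' hne
    exact pdis V E inc h3 s hO2 u u' hne (g u) (g u') (hUe u hu).1 (hUe u' hu').1
      (hUc u hu u' hu' hne)
  · -- hσ
    intro w hw w' hw' hss
    rcases hkind w hw with h1 | h1
    · rcases hkind w' hw' with h2 | h2
      · apply hg3 w (hTL w hw) w' (hTL w' hw')
        rw [h1.1, h2.1, hss]
      · have e1 := h1.2.1
        have e2 := h2.2.2.1
        rw [hss] at e1
        omega
    · rcases hkind w' hw' with h2 | h2
      · have e1 := h1.2.2.1
        have e2 := h2.2.1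
        rw [hss] at e1
        omega
      · by_contra hne
        by_cases hc : comp inc s (g w) = comp inc s (g w')
        · apply hne
          apply hg3 w (hTL w hw) w' (hTL w' hw')
          rw [h1.1, h2.1, hc]
        · have hd := pdis V E inc h3 s hO2 w w' hne (g w) (g w') h1.2.1 h2.2.1 hc
          rw [Finset.disjoint_left] at hd
          refine hd (a := (p w).1) ?_ ?_
          · rw [mem_VK]
            exact ⟨g w, mem_insert_self _ _, hσm w hw⟩
          · rw [mem_VK, hss]
            exact ⟨g w', mem_insert_self _ _, hσm w' hw'⟩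
  · -- hτ
    intro w hw hcon
    exact pF8 V E inc h3 s X hO w (hTL w hw) (p w).2 (hTL _ hcon) (hp w hw).1.2.2.1 (g w)
      (hg0 w (hTL w hw)) (hτm w hw)
  · -- hcyc
    intro w hw u hu v hv1 hv2
    exact pF8p V E inc h3 s X hO u (hUL u hu) w (hTL w hw) (hUT' u hu w hw) (g u) (hUe u hu).1
      (g w) (hg0 w (hTL w hw)) v hv1 hv2
  · -- hone
    intro w hw u hu u' hu' v hv v' hv' h1 h2
    by_contra hne
    exact pF10 V E inc h3 s X hO u (hUL u hu) u' (hUL u' hu') w (hTL w hw) hne
      (hUT' u hu w hw) (hUT' u' hu' w hw) (g u) (g u') (hUe u hu).1 (hUe u' hu').1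
      (hUc u hu u' hu' hne) (g w) (hg0 w (hTL w hw)) v hv v' hv' h1 h2
  · -- hslot
    intro w hw
    rcases hkind w hw with h1 | ⟨h1, h2, h4, h5, h6, u, hu, h7⟩
    · exact Or.inl h1.2.1
    · right
      refine ⟨h4, u, hu, ?_, ?_⟩
      · rw [mem_VK]
        exact ⟨g u, mem_insert_self _ _, pF11 V E inc h3 s X hO u (hUL u hu) w (hTL w hw)
          (hUT' u hu w hw).symm (g u) (g w) (hUe u hu).1 h2 h7 _ (hσm w hw)
          (hp w hw).1.2.1.symm⟩
      · rw [mem_VK]
        exact ⟨g u, mem_insert_self _ _, pF11 V E inc h3 s X hO u (hUL u hu) w (hTL w hw)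
          (hUT' u hu w hw).symm (g u) (g w) (hUe u hu).1 h2 h7 _ (hτm w hw)
          (hp w hw).1.2.2.1.symm⟩
  · -- hC
    intro w hw w' hw' u hu h1 h2 h4 h5
    have key : ∀ w ∈ T, dg inc s (p w).1 = 1 → (p w).1 ∈ VK inc (KK inc s (g u)) →
        comp inc s (g w) = comp inc s (g u) := by
      intro w hw h1 h4
      by_contra hc
      obtain ⟨he, -⟩ := hent2 w hw h1
      have hd := pdis V E inc h3 s hO2 w u (hUT' u hu w hw) (g w) (g u) he (hUe u hu).1 hc
      rw [Finset.disjoint_left] at hd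
      refine hd (a := (p w).1) ?_ h4
      rw [mem_VK]
      exact ⟨g w, mem_insert_self _ _, hσm w hw⟩
    apply hg3 w (hTL w hw) w' (hTL w' hw')
    rw [(hent2 w hw h1).2, (hent2 w' hw' h2).2, key w hw h1 h4, key w' hw' h2 h5]
  · -- hord
    intro w hw h1
    rcases hkind w hw with ⟨h2, h4, h5⟩ | h2
    · have h6 := St_dg_le hSt (p w).2
      have h7 : dg inc s (p w).2 = 1 ∨ dg inc s (p w).2 = 2 := by omega
      rcases h7 with h7 | h7
      · exact ho1 _ _ h7 h4
      · have h8 := h5 (p w).2 (hτm w hw) h7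
        have h9 : ord (p w).2 ≠ ord (p w).1 := fun h => (hp w hw).1.2.2.2 (hoi h).symm
        omega
    · exact h2.2.2.2.2.1

end Pool.Agent.W209.CF
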