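import Pool.Agent.W209.CF.Asm
import Pool.Agent.W209.CF.DataP
import Pool.Agent.W209.CF.CC
import Pool.Agent.W28.CF3.Hall
import Pool.Agent.W800.CF3.Move
import Pool.Agent.W800.CF3.F1
import Pool.Agent.W800.CF3.F2
import Pool.Agent.W91.CF3.Step
import Pool.Agent.W91.CF3.F8
import Pool.Agent.W999.CF3.F9
import Pool.Agent.W999.CF3.PH
import Pool.Agent.W999.CF3.UU
import Pool.Agent.W597.CF3.Start
import Pool.Agent.W381.CF3.Local
import Pool.Agent.W100.CF3.OddK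
import Pool.Agent.W260.CF3.Gad
import Pool.Agent.W440.CF3.LF
import Pool.Agent.W929.CF3.PH3
import Pool.Agent.W110.CF3.F7
import Pool.Agent.W912.CF3.PHZ

/-!
`Good3`: the whole proof put together.
-/

namespace Pool.Agent.W209.CF

theorem t_irr : S_irr := Pool.Agent.W800.CF3.irr
theorem t_F1 : S_F1 := Pool.Agent.W800.CF3.f1 t_irr
theorem t_F2 : S_F2 := Pool.Agent.W800.CF3.f2 t_irr
theorem t_oddK : S_oddK := Pool.Agent.W100.CF3.oddK t_irr t_F1
theorem t_local : S_local := Pool.Agent.W381.CF3.loc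
theorem t_F8 : S_F8 := Pool.Agent.W91.CF3.F8.f8 t_F2
theorem t_dis : S_dis := Pool.Agent.W999.CF3.dis t_F1
theorem t_U : S_U := Pool.Agent.W999.CF3U.uu t_F1 t_F2 t_oddK
theorem t_flip : S_flip := Pool.Agent.W260.CF3.flip
theorem t_del : S_del := Pool.Agent.W260.CF3.del
theorem t_hit : S_hit := Pool.Agent.W260.CF3.hit t_flip t_del
theorem t_start : S_start := Pool.Agent.W597.CF3.start
theorem t_step : S_step := Pool.Agent.W91.CF3.step t_flip
theorem t_ph1 : S_ph1 := Pool.Agent.W999.CF3PH.ph1 t_start t_step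
theorem t_ph2 : S_ph2 := Pool.Agent.W999.CF3PH.ph2 t_step

theorem t_F7 : S_F7 := Pool.Agent.W110.CF3.f7 t_irr t_F1 t_F2
theorem t_move : S_move := Pool.Agent.W800.CF3.move t_F1 t_F2 t_F7 t_oddK
theorem t_F8p : S_F8p := Pool.Agent.W91.CF3.F8.f8p t_oddK t_move t_F8
theorem t_F11 : S_F11 := Pool.Agent.W91.CF3.F8.f11 t_oddK t_F8p
theorem t_F9 : S_F9 := Pool.Agent.W999.CF3.f9 t_F1 t_F2 t_oddK t_move t_F8p
theorem t_F10 : S_F10 := Pool.Agent.W999.CF3.f10 t_F1 t_F2 t_oddK t_move t_local t_F8p t_dis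
theorem t_hall : S_hall := Pool.Agent.W28.CF3.hall t_U t_F8 t_F11
theorem t_F : S_F := Pool.Agent.W440.CF3.lemF t_flip t_del
theorem t_ph3 : S_ph3 := Pool.Agent.W929.CF3.PH3.ph3 t_F t_hit

theorem t_phZ : S_phZ := Pool.Agent.W912.CF3.phZ t_flip

theorem t_C : S_C := cC t_F1 t_F2 t_oddK t_move t_local
theorem t_data : S_data :=
  data t_C t_hall t_F1 t_F2 t_F7 t_oddK t_F8 t_F8p t_F9 t_F10 t_F11 t_dis

theorem good3 : Good3 := good3_of t_data t_ph1 t_phZ t_ph2 t_ph3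

end Pool.Agent.W209.CF
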