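import Pool.Agent.W209.CF.Stm
import Pool.Agent.H762R3.CF.Basic

/-!
Reduction: `Good3` implies that every `r`-uniform hypergraph of maximum degree three has a
conflict-free colouring with three colours (`r ≥ 3`).
-/

namespace Pool.Agent.W209.CF

open Finset

theorem red (hG : Good3) : ∀ r : ℕ, 3 ≤ r → Pool.Agent.H762R3.CF.Good r 3 := by
  classical
  intro r hr n E hU hD
  let d : Fin n → ℕ := fun v => (E.filter (fun e => v ∈ e)).card
  let W : Type := {p : Fin n × Fin 3 // p.2.val < 3 - d p.1}
  let V' : Type := (↥E × Fin r) ⊕ W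
  let A : Fin n × Fin r → Finset (↥E × Fin r) :=
    fun q => univ.filter (fun x => q.1 ∈ x.1.1 ∧ x.2 = q.2)
  let B : Fin n × Fin r → Finset W := fun q => univ.filter (fun x => x.1.1 = q.1)
  let inc : Fin n × Fin r → Finset V' := fun q => (A q).disjSum (B q)
  have hmL : ∀ (q : Fin n × Fin r) (x : ↥E × Fin r),
      (Sum.inl x : V') ∈ inc q ↔ q.1 ∈ x.1.1 ∧ x.2 = q.2 := by
    intro q x
    show Sum.inl x ∈ (A q).disjSum (B q) ↔ _
    rw [Finset.inl_mem_disjSum]
    simp [A]
  have hmR : ∀ (q : Fin n × Fin r) (x : W),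
      (Sum.inr x : V') ∈ inc q ↔ x.1.1 = q.1 := by
    intro q x
    show Sum.inr x ∈ (A q).disjSum (B q) ↔ _
    rw [Finset.inr_mem_disjSum]
    simp [B]
  have hA : ∀ q, (A q).card = d q.1 := by
    intro q
    have h1 : (A q) = (E.attach.filter (fun e => q.1 ∈ e.1)).image (fun e => (e, q.2)) := by
      ext ⟨e, i⟩
      simp only [A, mem_filter, mem_univ, true_and, mem_image, mem_attach, Prod.mk.injEq]
      constructor
      · rintro ⟨h1, h2⟩
        exact ⟨e, h1, rfl, h2.symm⟩
      · rintro ⟨e', h1, h2, h3⟩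
        subst h2
        exact ⟨h1, h3.symm⟩
    rw [h1, Finset.card_image_of_injective _ (by
      intro a b hab
      simpa using hab)]
    have h2 : (E.attach.filter (fun e => q.1 ∈ e.1)).image Subtype.val =
        E.filter (fun e => q.1 ∈ e) := by
      ext e
      simp only [mem_image, mem_filter, mem_attach, true_and, Subtype.exists, exists_and_left,
        exists_prop, exists_eq_right_right]
      tauto
    show _ = (E.filter (fun e => q.1 ∈ e)).card
    rw [← h2, Finset.card_image_of_injective _ Subtype.val_injective]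
  have hB : ∀ q, (B q).card = 3 - d q.1 := by
    intro q
    have h1 : (B q).card = ((univ : Finset (Fin 3)).filter (fun j => j.val < 3 - d q.1)).card := by
      refine Finset.card_bij (fun x _ => x.1.2) ?_ ?_ ?_
      · intro x hx
        rw [mem_filter] at hx ⊢
        refine ⟨mem_univ _, ?_⟩
        have := x.2
        rw [hx.2] at this
        exact this
      · intro x hx y hy hxy
        rw [mem_filter] at hx hy
        apply Subtype.ext
        apply Prod.ext
        · rw [hx.2, hy.2]
        · exact hxy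
      · intro j hj
        rw [mem_filter] at hj
        exact ⟨⟨(q.1, j), hj.2⟩, by simp [B], rfl⟩
    rw [h1]
    have h2 : 3 - d q.1 ≤ 3 := Nat.sub_le _ _
    generalize 3 - d q.1 = m at h2
    interval_cases m <;> decide
  have hc3 : ∀ q, (inc q).card = 3 := by
    intro q
    show ((A q).disjSum (B q)).card = 3
    rw [Finset.card_disjSum, hA, hB]
    have := hD q.1
    show d q.1 + (3 - d q.1) = 3
    have h3 : d q.1 ≤ 3 := hD q.1
    omega
  have hreg : ∀ v : V', (univ.filter (fun q => v ∈ inc q)).card = r := by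
    intro v
    rcases v with ⟨e, i⟩ | x
    · have h1 : (univ.filter (fun q => (Sum.inl (e, i) : V') ∈ inc q)) =
          e.1.image (fun v => (v, i)) := by
        ext ⟨v, j⟩
        simp only [mem_filter, mem_univ, true_and, mem_image, hmL, Prod.mk.injEq]
        constructor
        · rintro ⟨h1, h2⟩
          exact ⟨v, h1, rfl, h2⟩
        · rintro ⟨v', h1, h2, h3⟩
          subst h2
          exact ⟨h1, h3⟩
      rw [h1, Finset.card_image_of_injective _ (by
        intro a b hab
        simpa using hab)]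
      exact hU e.1 e.2
    · have h1 : (univ.filter (fun q => (Sum.inr x : V') ∈ inc q)) =
          (univ : Finset (Fin r)).image (fun i => (x.1.1, i)) := by
        ext ⟨v, j⟩
        simp only [mem_filter, mem_univ, true_and, mem_image, hmR, Prod.mk.injEq]
        constructor
        · intro h1
          exact ⟨j, h1, rfl⟩
        · rintro ⟨j', h1, h2⟩
          exact h1
      rw [h1, Finset.card_image_of_injective _ (by
        intro a b hab
        simpa using hab)]
      simp
  obtain ⟨c, hc⟩ := hG V' (Fin n × Fin r) inc r hr hc3 hreg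
  have hr0 : 0 < r := by omega
  refine ⟨fun v => c (v, ⟨0, hr0⟩), ?_⟩
  intro e he
  have key : ∀ i : Fin 3, cnt inc c i (Sum.inl (⟨e, he⟩, ⟨0, hr0⟩) : V') = 1 →
      ∃ v ∈ e, ∀ w ∈ e, c (w, ⟨0, hr0⟩) = c (v, ⟨0, hr0⟩) → w = v := by
    intro i hi
    rw [cnt, Finset.card_eq_one] at hi
    obtain ⟨q, hq⟩ := hi
    have h1 : q ∈ univ.filter (fun q => (Sum.inl (⟨e, he⟩, ⟨0, hr0⟩) : V') ∈ inc q ∧ c q = i) := by
      rw [hq]; simp
    rw [mem_filter] at h1
    obtain ⟨-, h2, h3⟩ := h1
    rw [hmL] at h2
    refine ⟨q.1, h2.1, ?_⟩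
    intro w hw hcw
    have h4 : ((w, ⟨0, hr0⟩) : Fin n × Fin r) ∈
        univ.filter (fun q => (Sum.inl (⟨e, he⟩, ⟨0, hr0⟩) : V') ∈ inc q ∧ c q = i) := by
      rw [mem_filter]
      refine ⟨mem_univ _, ?_, ?_⟩
      · rw [hmL]
        exact ⟨hw, rfl⟩
      · rw [hcw, ← h3]
        congr 1
        exact Prod.ext rfl h2.2
    rw [hq, mem_singleton] at h4
    rw [← h4]
  rcases hc (Sum.inl (⟨e, he⟩, ⟨0, hr0⟩)) with h | h
  · exact key 1 h
  · exact key 2 h

end Pool.Agent.W209.CF
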