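import Pool.Agent.W209.CF.Stm

/-!
`Good3` from the data and the phases of the assembly.
-/

namespace Pool.Agent.W209.CF

open Finset

theorem good3_of (hdata : S_data) (hph1 : S_ph1) (hphZ : S_phZ) (hph2 : S_ph2)
    (hph3 : S_ph3) : Good3 := by
  intro V E _ _ _ _ inc r hr h3 hreg
  obtain ⟨s, ⟨D⟩⟩ := hdata V E inc r hr h3 hreg
  obtain ⟨c1, P1, S1, hI1, hZ1, hP1⟩ := hph1 V E inc h3 s D
  obtain ⟨c2, P2, S2, hI2, hP2⟩ := hphZ V E inc h3 s D c1 P1 S1 hI1 hZ1 hP1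
  obtain ⟨c3, S3, hI3⟩ := hph2 V E inc h3 s D c2 P2 S2 hI2 hP2
  exact hph3 V E inc h3 s D c3 S3 hI3

end Pool.Agent.W209.CF
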