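import Mathlib

/-!
Conflict-free colourings with three colours, dual form: definitions.

`V` = vertices, `E` = labelled hyperedges, `inc e` = the three vertices of the hyperedge `e`.
A colouring is `c : E → Fin 3`; colour `0` means unused.
-/

namespace Pool.Agent.W209.CF

open Finset

section
variable {V E : Type} [Fintype V] [DecidableEq V] [Fintype E] [DecidableEq E]

/-- the number of hyperedges of colour `i` at the vertex `v` -/
def cnt (inc : E → Finset V) (s : E → Fin 3) (i : Fin 3) (v : V) : ℕ :=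
  (univ.filter (fun e => v ∈ inc e ∧ s e = i)).card

/-- `v` is good: exactly one hyperedge of colour 1, or exactly one of colour 2 -/
def Good (inc : E → Finset V) (s : E → Fin 3) (v : V) : Prop :=
  cnt inc s 1 v = 1 ∨ cnt inc s 2 v = 1

/-- number of coloured hyperedges at `v` -/
def dg (inc : E → Finset V) (s : E → Fin 3) (v : V) : ℕ :=
  cnt inc s 1 v + cnt inc s 2 v

/-- a state: both colour classes are matchings -/
def St (inc : E → Finset V) (s : E → Fin 3) : Prop :=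
  ∀ v, cnt inc s 1 v ≤ 1 ∧ cnt inc s 2 v ≤ 1

/-- uncovered vertices -/
def holes (inc : E → Finset V) (s : E → Fin 3) : Finset V :=
  univ.filter (fun v => dg inc s v = 0)

/-- coloured hyperedges -/
def supp (s : E → Fin 3) : Finset E := univ.filter (fun e => s e ≠ 0)

/-- the opposite colour -/
def opp (i : Fin 3) : Fin 3 := if i = 1 then 2 else if i = 2 then 1 else 0

/-- both coloured and sharing a vertex -/
def Adj (inc : E → Finset V) (s : E → Fin 3) (e e' : E) : Prop :=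
  s e ≠ 0 ∧ s e' ≠ 0 ∧ ∃ v, v ∈ inc e ∧ v ∈ inc e'

/-- the coloured hyperedges connected (through coloured hyperedges) to the hyperedge `h` -/
noncomputable def comp (inc : E → Finset V) (s : E → Fin 3) (h : E) : Finset E := by
  classical
  exact univ.filter (fun e => s e ≠ 0 ∧ ∃ e', s e' ≠ 0 ∧ (∃ v, v ∈ inc h ∧ v ∈ inc e') ∧
    Relation.ReflTransGen (Adj inc s) e' e)

/-- `h` together with the component(s) it touches -/
noncomputable def KK (inc : E → Finset V) (s : E → Fin 3) (h : E) : Finset E :=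
  insert h (comp inc s h)

/-- vertices of a family -/
def VK (inc : E → Finset V) (K : Finset E) : Finset V := K.biUnion inc

/-- degree of `v` in the family `K` -/
def kd (inc : E → Finset V) (K : Finset E) (v : V) : ℕ := (K.filter (fun e => v ∈ inc e)).card

/-- private vertices of the family `K` -/
def pri (inc : E → Finset V) (K : Finset E) : Finset V := univ.filter (fun v => kd inc K v = 1)

/-- abstract form of: `K` is a bare odd cycle (each hyperedge has one private vertex and two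
cycle vertices) -/
structure OddK (inc : E → Finset V) (K : Finset E) : Prop where
  kd2 : ∀ v, kd inc K v ≤ 2
  pri1 : ∀ e ∈ K, ∃ p ∈ inc e, kd inc K p = 1 ∧ ∀ q ∈ inc e, q ≠ p → kd inc K q = 2
  col : ∀ e ∈ K, ∃ c : E → Fin 3, (∀ e', c e' ≠ 0 ↔ (e' ∈ K ∧ e' ≠ e)) ∧ St inc c ∧
    ∀ x ∈ inc e, ∀ y ∈ inc e, x ≠ y → kd inc K x = 2 → kd inc K y = 2 →
      cnt inc c 1 x ≠ cnt inc c 1 y
  conn : ∀ e ∈ K, ∀ A ⊆ K.erase e, A.Nonempty →
    (∀ e1 ∈ A, ∀ e2 ∈ K.erase e, (∃ v, v ∈ inc e1 ∧ v ∈ inc e2) → e2 ∈ A) → A = K.erase e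

/-- `h` contains the hole `u`, and its other vertices are covered exactly once -/
def Entry (inc : E → Finset V) (s : E → Fin 3) (u : V) (h : E) : Prop :=
  u ∈ inc h ∧ dg inc s u = 0 ∧ ∀ v ∈ inc h, v ≠ u → dg inc s v = 1

/-- state with the fewest holes -/
def Opt1 (inc : E → Finset V) (s : E → Fin 3) : Prop :=
  St inc s ∧ ∀ s', St inc s' → (holes inc s).card ≤ (holes inc s').card

/-- and then the fewest coloured hyperedges -/
def Opt2 (inc : E → Finset V) (s : E → Fin 3) : Prop :=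
  Opt1 inc s ∧ ∀ s', Opt1 inc s' → (supp s).card ≤ (supp s').card

/-- a family of hyperedges containing at least two holes each, disjoint on the holes -/
def TwoH (inc : E → Finset V) (s : E → Fin 3) (X : Finset E) : Prop :=
  (∀ f ∈ X, 2 ≤ (inc f ∩ holes inc s).card) ∧
  ∀ f ∈ X, ∀ g ∈ X, f ≠ g → Disjoint (inc f ∩ holes inc s) (inc g ∩ holes inc s)

/-- and then the largest such family -/
def Opt3 (inc : E → Finset V) (s : E → Fin 3) (X : Finset E) : Prop :=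
  Opt2 inc s ∧ TwoH inc s X ∧
    ∀ s' X', Opt2 inc s' → TwoH inc s' X' → X'.card ≤ X.card

/-- holes not covered by `X` -/
def LL (inc : E → Finset V) (s : E → Fin 3) (X : Finset E) : Finset V :=
  (holes inc s).filter (fun v => ∀ f ∈ X, v ∉ inc f)

/-- every other hyperedge meeting `K` at least twice lies inside the private vertices of `K` -/
def weakK (inc : E → Finset V) (K : Finset E) : Prop :=
  ∀ f, f ∉ K → 2 ≤ (inc f ∩ VK inc K).card → inc f ⊆ pri inc K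

/-- the components weakly entered by `u` -/
noncomputable def wks (inc : E → Finset V) (s : E → Fin 3) (u : V) : Finset (Finset E) := by
  classical
  exact (univ.filter (fun h => Entry inc s u h ∧ weakK inc (KK inc s h))).image
    (fun h => comp inc s h)

/-- usable hyperedges at the hole `u` -/
def Us (inc : E → Finset V) (s : E → Fin 3) (u : V) (f : E) : Prop :=
  u ∈ inc f ∧ ((∃ v ∈ inc f, dg inc s v = 2) ∨ (Entry inc s u f ∧ ¬ weakK inc (KK inc s f)))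

/-- the data from which a good colouring is assembled -/
structure Data (inc : E → Finset V) (s : E → Fin 3) where
  X : Finset E
  U : Finset V
  T : Finset V
  K : V → Finset E
  f : V → E
  g : V → E
  σ : V → V
  τ : V → V
  ord : V → ℕ
  hs : St inc s
  hX : ∀ x ∈ X, ∃ w w' z, inc x = {w, w', z} ∧ w ≠ w' ∧ dg inc s w = 0 ∧ dg inc s w' = 0 ∧
    dg inc s z = 2 ∧ ∀ e, s e ≠ 0 → z ∈ inc e → ∀ v ∈ inc e, v ≠ z → dg inc s v = 1
  hXd : ∀ x ∈ X, ∀ y ∈ X, x ≠ y → ∀ v ∈ inc x, v ∈ inc y → dg inc s v = 2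
  hU0 : ∀ u ∈ U, dg inc s u = 0
  hT0 : ∀ w ∈ T, dg inc s w = 0
  hcov : ∀ v, dg inc s v = 0 → v ∈ U ∨ v ∈ T ∨ ∃ x ∈ X, v ∈ inc x
  hUT : Disjoint U T
  hUX : ∀ v, v ∈ U ∨ v ∈ T → ∀ x ∈ X, v ∉ inc x
  hKodd : ∀ u ∈ U, OddK inc (K u)
  hKu : ∀ u ∈ U, u ∈ VK inc (K u)
  hKh : ∀ u ∈ U, ∀ v ∈ VK inc (K u), v ≠ u → dg inc s v ≠ 0
  hK2 : ∀ u ∈ U, ∀ v ∈ VK inc (K u), dg inc s v = 2 → kd inc (K u) v = 2
  hKiso : ∀ u ∈ U, ∀ e, s e ≠ 0 → e ∉ K u → Disjoint (inc e) (VK inc (K u))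
  hKX : ∀ u ∈ U, ∀ x ∈ X, Disjoint (inc x) (VK inc (K u))
  hKd : ∀ u ∈ U, ∀ u' ∈ U, u ≠ u' → Disjoint (VK inc (K u)) (VK inc (K u'))
  hf : ∀ u ∈ U, f u ∉ K u ∧ 2 ≤ (inc (f u) ∩ VK inc (K u)).card ∧ ¬ inc (f u) ⊆ pri inc (K u)
  hg : ∀ w ∈ T, inc (g w) = {w, σ w, τ w} ∧ w ≠ σ w ∧ w ≠ τ w ∧ σ w ≠ τ w
  hσ : ∀ w ∈ T, ∀ w' ∈ T, σ w = σ w' → w = w'
  hτ : ∀ w ∈ T, τ w ∉ T
  hcyc : ∀ w ∈ T, ∀ u ∈ U, ∀ v ∈ inc (g w), v ∈ VK inc (K u) → kd inc (K u) v = 2
  hone : ∀ w ∈ T, ∀ u ∈ U, ∀ u' ∈ U, ∀ v ∈ inc (g w), ∀ v' ∈ inc (g w),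
    v ∈ VK inc (K u) → v' ∈ VK inc (K u') → u = u'
  hslot : ∀ w ∈ T, dg inc s (σ w) = 2 ∨
    (dg inc s (σ w) = 1 ∧ ∃ u ∈ U, σ w ∈ VK inc (K u) ∧ τ w ∈ VK inc (K u))
  hC : ∀ w ∈ T, ∀ w' ∈ T, ∀ u ∈ U, dg inc s (σ w) = 1 → dg inc s (σ w') = 1 →
    σ w ∈ VK inc (K u) → σ w' ∈ VK inc (K u) → w = w'
  hord : ∀ w ∈ T, dg inc s (τ w) ≠ 0 → ord (τ w) < ord (σ w)
  hord1 : ∀ v v', dg inc s v = 1 → dg inc s v' = 2 → ord v < ord v'
  hordZ : ∀ v v', dg inc s v = 2 → dg inc s v' = 2 → (∃ x ∈ X, v ∈ inc x) →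
    (¬ ∃ x ∈ X, v' ∈ inc x) → ord v < ord v'
  hordi : Function.Injective ord

/-- `v` is not yet treated: an unprocessed token hole, or a vertex of an unsolved `K u` -/
def bad {inc : E → Finset V} {s : E → Fin 3} (D : Data inc s) (P S : Finset V) (v : V) : Prop :=
  (v ∈ D.T ∧ v ∉ P) ∨ ∃ u ∈ D.U, u ∉ S ∧ v ∈ VK inc (D.K u)

/-- the invariant of the assembly: tokens `P` processed, cycles `K u`, `u ∈ S`, solved -/
structure Inv {inc : E → Finset V} {s : E → Fin 3} (D : Data inc s) (c : E → Fin 3)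
    (P S : Finset V) : Prop where
  hP : P ⊆ D.T
  hS : S ⊆ D.U
  good : ∀ v, ¬ bad D P S v → Good inc c v
  zero : ∀ v, bad D P S v → dg inc c v = 0
  tie : ∀ w ∈ D.T, w ∉ P → dg inc s (D.σ w) = 2 → (¬ ∃ x ∈ D.X, D.σ w ∈ inc x) →
    (∀ u ∈ D.U, u ∉ S → D.σ w ∉ VK inc (D.K u)) → cnt inc c 1 (D.σ w) = 1 ∧ cnt inc c 2 (D.σ w) = 1

/-- state of the centres of `X` before they are used -/
def Zst {inc : E → Finset V} {s : E → Fin 3} (D : Data inc s) (c : E → Fin 3) : Prop :=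
  ∀ z, dg inc s z = 2 → (∃ x ∈ D.X, z ∈ inc x) → 2 ≤ cnt inc c 1 z ∧
    ∃ e, c e = 2 ∧ z ∈ inc e ∧ ∀ v ∈ inc e, v ≠ z → cnt inc c 1 v = 0 ∧ cnt inc c 2 v = 1

end

end Pool.Agent.W209.CF
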