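import Pool.Agent.W209.CF.Defs

/-!
Statements (as `Prop`s) of the steps of the proof of `Good3`.
-/

namespace Pool.Agent.W209.CF

open Finset

/-- MAIN TARGET: 3-uniform, `r`-regular, `r ≥ 3`: there is a good colouring -/
def Good3 : Prop := ∀ (V E : Type) [Fintype V] [DecidableEq V] [Fintype E] [DecidableEq E]
  (inc : E → Finset V) (r : ℕ), 3 ≤ r → (∀ e, (inc e).card = 3) →
  (∀ v, (univ.filter (fun e => v ∈ inc e)).card = r) → ∃ c : E → Fin 3, ∀ v, Good inc c v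

/-! ### A. facts on optimal states -/

def S_irr : Prop := ∀ (V E : Type) [Fintype V] [DecidableEq V] [Fintype E] [DecidableEq E]
  (inc : E → Finset V), (∀ e, (inc e).card = 3) → ∀ s, Opt2 inc s →
  ∀ e, s e ≠ 0 → ∃ v ∈ inc e, dg inc s v = 1

def S_F1 : Prop := ∀ (V E : Type) [Fintype V] [DecidableEq V] [Fintype E] [DecidableEq E]
  (inc : E → Finset V), (∀ e, (inc e).card = 3) → ∀ s, Opt2 inc s →
  ∀ u h, Entry inc s u h → ∀ a ∈ inc h, ∀ b ∈ inc h, a ≠ u → b ≠ u → a ≠ b →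
  ∀ ea eb, s ea ≠ 0 → a ∈ inc ea → s eb ≠ 0 → b ∈ inc eb →
  Relation.ReflTransGen (Adj inc s) ea eb ∧ s ea ≠ s eb ∧
  (∃ a' ∈ inc ea, a' ≠ a ∧ dg inc s a' = 1) ∧ (∃ b' ∈ inc eb, b' ≠ b ∧ dg inc s b' = 1)

def S_F2 : Prop := ∀ (V E : Type) [Fintype V] [DecidableEq V] [Fintype E] [DecidableEq E]
  (inc : E → Finset V), (∀ e, (inc e).card = 3) → ∀ s, Opt2 inc s →
  ∀ f, ∀ w ∈ inc f, ∀ w' ∈ inc f, w ≠ w' → dg inc s w = 0 → dg inc s w' = 0 →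
  ∃ z, inc f = {w, w', z} ∧ z ≠ w ∧ z ≠ w' ∧ dg inc s z = 2 ∧
    ∀ e, s e ≠ 0 → z ∈ inc e → ∀ v ∈ inc e, v ≠ z → dg inc s v = 1

def S_F7 : Prop := ∀ (V E : Type) [Fintype V] [DecidableEq V] [Fintype E] [DecidableEq E]
  (inc : E → Finset V), (∀ e, (inc e).card = 3) → ∀ s, Opt2 inc s →
  ∀ u h, Entry inc s u h → ∀ f w w' z, inc f = {w, w', z} → w ≠ w' → z ≠ w → z ≠ w' →
  dg inc s w = 0 → dg inc s w' = 0 → u ≠ w → u ≠ w' → z ∉ VK inc (KK inc s h)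

def S_oddK : Prop := ∀ (V E : Type) [Fintype V] [DecidableEq V] [Fintype E] [DecidableEq E]
  (inc : E → Finset V), (∀ e, (inc e).card = 3) → ∀ s, Opt2 inc s →
  ∀ u h, Entry inc s u h → OddK inc (KK inc s h) ∧
    ∀ v ∈ VK inc (KK inc s h),
      kd inc (KK inc s h) v = dg inc s v + (if v ∈ inc h then 1 else 0)

def S_local : Prop := ∀ (V E : Type) [Fintype V] [DecidableEq V] [Fintype E] [DecidableEq E]
  (inc : E → Finset V), (∀ e, (inc e).card = 3) → ∀ (s s' : E → Fin 3) (K : Finset E),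
  (∀ e, e ∉ K → s' e = s e) → (∀ e, s e ≠ 0 → e ∉ K → Disjoint (inc e) (VK inc K)) →
  ∀ h, Disjoint (inc h) (VK inc K) → comp inc s' h = comp inc s h ∧
    ∀ u, (Entry inc s' u h ↔ Entry inc s u h)

def S_move : Prop := ∀ (V E : Type) [Fintype V] [DecidableEq V] [Fintype E] [DecidableEq E]
  (inc : E → Finset V), (∀ e, (inc e).card = 3) → ∀ s X, Opt3 inc s X →
  ∀ u ∈ LL inc s X, ∀ h, Entry inc s u h → ∀ e ∈ KK inc s h,
  ∃ s' p, p ∈ inc e ∧ kd inc (KK inc s h) p = 1 ∧ Opt3 inc s' X ∧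
    (∀ e', e' ∉ KK inc s h → s' e' = s e') ∧ (∀ e' ∈ KK inc s h, (s' e' ≠ 0 ↔ e' ≠ e)) ∧
    LL inc s' X = insert p ((LL inc s X).erase u) ∧ Entry inc s' p e ∧
    KK inc s' e = KK inc s h ∧ comp inc s' e = (KK inc s h).erase e

def S_F8 : Prop := ∀ (V E : Type) [Fintype V] [DecidableEq V] [Fintype E] [DecidableEq E]
  (inc : E → Finset V), (∀ e, (inc e).card = 3) → ∀ s X, Opt3 inc s X →
  ∀ u ∈ LL inc s X, ∀ w ∈ LL inc s X, u ≠ w → ∀ f, u ∈ inc f → w ∉ inc f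

def S_F8p : Prop := ∀ (V E : Type) [Fintype V] [DecidableEq V] [Fintype E] [DecidableEq E]
  (inc : E → Finset V), (∀ e, (inc e).card = 3) → ∀ s X, Opt3 inc s X →
  ∀ u ∈ LL inc s X, ∀ w ∈ LL inc s X, w ≠ u → ∀ h, Entry inc s u h →
  ∀ f, w ∈ inc f → ∀ p ∈ inc f, p ∈ VK inc (KK inc s h) → kd inc (KK inc s h) p = 2

def S_F9 : Prop := ∀ (V E : Type) [Fintype V] [DecidableEq V] [Fintype E] [DecidableEq E]
  (inc : E → Finset V), (∀ e, (inc e).card = 3) → ∀ s X, Opt3 inc s X →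
  ∀ u ∈ LL inc s X, ∀ w ∈ LL inc s X, w ≠ u → ∀ h, Entry inc s u h →
  ∀ f, w ∈ inc f → ∀ x ∈ inc f, x ∈ VK inc (KK inc s h) →
  ∀ z ∈ inc f, z ≠ w → z ∉ VK inc (KK inc s h) → dg inc s z = 2

def S_F10 : Prop := ∀ (V E : Type) [Fintype V] [DecidableEq V] [Fintype E] [DecidableEq E]
  (inc : E → Finset V), (∀ e, (inc e).card = 3) → ∀ s X, Opt3 inc s X →
  ∀ u ∈ LL inc s X, ∀ u' ∈ LL inc s X, ∀ w ∈ LL inc s X, u ≠ u' → w ≠ u → w ≠ u' →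
  ∀ h h', Entry inc s u h → Entry inc s u' h' → comp inc s h ≠ comp inc s h' →
  ∀ f, w ∈ inc f → ∀ x ∈ inc f, ∀ x' ∈ inc f, x ∈ VK inc (KK inc s h) →
    x' ∉ VK inc (KK inc s h')

def S_dis : Prop := ∀ (V E : Type) [Fintype V] [DecidableEq V] [Fintype E] [DecidableEq E]
  (inc : E → Finset V), (∀ e, (inc e).card = 3) → ∀ s, Opt2 inc s →
  ∀ u u', u ≠ u' → ∀ h h', Entry inc s u h → Entry inc s u' h' →
  comp inc s h ≠ comp inc s h' → Disjoint (VK inc (KK inc s h)) (VK inc (KK inc s h'))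

def S_F11 : Prop := ∀ (V E : Type) [Fintype V] [DecidableEq V] [Fintype E] [DecidableEq E]
  (inc : E → Finset V), (∀ e, (inc e).card = 3) → ∀ s X, Opt3 inc s X →
  ∀ u ∈ LL inc s X, ∀ w ∈ LL inc s X, u ≠ w → ∀ h h', Entry inc s u h → Entry inc s w h' →
  comp inc s h = comp inc s h' → ∀ v ∈ inc h', v ≠ w → v ∈ inc h

/-! ### B. the choice of the state -/

def S_C : Prop := ∀ (V E : Type) [Fintype V] [DecidableEq V] [Fintype E] [DecidableEq E]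
  (inc : E → Finset V), (∀ e, (inc e).card = 3) →
  ∃ s X, Opt3 inc s X ∧ ∀ u ∈ LL inc s X, (wks inc s u).card ≤ 1

def S_U : Prop := ∀ (V E : Type) [Fintype V] [DecidableEq V] [Fintype E] [DecidableEq E]
  (inc : E → Finset V), (∀ e, (inc e).card = 3) → ∀ s X, Opt3 inc s X →
  ∀ u ∈ LL inc s X, (wks inc s u).card ≤ 1 →
  ∃ R : Finset E, (∀ f ∈ R, Us inc s u f) ∧ (univ.filter (fun e => u ∈ inc e)).card ≤ R.card + 2

def S_hall : Prop := ∀ (V E : Type) [Fintype V] [DecidableEq V] [Fintype E] [DecidableEq E]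
  (inc : E → Finset V) (r : ℕ), 3 ≤ r → (∀ e, (inc e).card = 3) →
  (∀ v, (univ.filter (fun e => v ∈ inc e)).card = r) → ∀ s X, Opt3 inc s X →
  (∀ u ∈ LL inc s X, (wks inc s u).card ≤ 1) → ∀ ord : V → ℕ, Function.Injective ord →
  ∃ (ψ : V → V ⊕ (Finset E × Bool)) (g : V → E),
    (∀ u ∈ LL inc s X, u ∈ inc (g u)) ∧
    (∀ u ∈ LL inc s X, ∀ v, ψ u = Sum.inl v → v ∈ inc (g u) ∧ dg inc s v = 2 ∧
      ∀ y ∈ inc (g u), dg inc s y = 2 → ord y ≤ ord v) ∧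
    (∀ u ∈ LL inc s X, ∀ D b, ψ u = Sum.inr (D, b) → Entry inc s u (g u) ∧
      ¬ weakK inc (KK inc s (g u)) ∧ D = comp inc s (g u)) ∧
    (∀ u ∈ LL inc s X, ∀ u' ∈ LL inc s X, ψ u = ψ u' → u = u')

def S_data : Prop := ∀ (V E : Type) [Fintype V] [DecidableEq V] [Fintype E] [DecidableEq E]
  (inc : E → Finset V) (r : ℕ), 3 ≤ r → (∀ e, (inc e).card = 3) →
  (∀ v, (univ.filter (fun e => v ∈ inc e)).card = r) → ∃ s, Nonempty (Data inc s)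

/-! ### C. gadgets -/

def S_flip : Prop := ∀ (V E : Type) [Fintype V] [DecidableEq V] [Fintype E] [DecidableEq E]
  (inc : E → Finset V), (∀ e, (inc e).card = 3) → ∀ K, OddK inc K →
  ∀ x, kd inc K x = 2 → ∀ α : Fin 3, α ≠ 0 →
  ∃ c : E → Fin 3, (∀ e, c e ≠ 0 → e ∈ K) ∧ cnt inc c α x = 2 ∧ cnt inc c (opp α) x = 0 ∧
    (∀ v, v ≠ x → kd inc K v = 2 → cnt inc c 1 v = 1 ∧ cnt inc c 2 v = 1) ∧
    (∀ v, kd inc K v = 1 → cnt inc c 1 v + cnt inc c 2 v = 1)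

def S_del : Prop := ∀ (V E : Type) [Fintype V] [DecidableEq V] [Fintype E] [DecidableEq E]
  (inc : E → Finset V), (∀ e, (inc e).card = 3) → ∀ K, OddK inc K →
  ∀ e ∈ K, ∀ y, y ∈ VK inc K → (kd inc K y = 1 → y ∉ inc e) → ∀ γ : Fin 3, γ ≠ 0 →
  ∃ c : E → Fin 3, (∀ e', c e' ≠ 0 ↔ (e' ∈ K ∧ e' ≠ e)) ∧ St inc c ∧
    ((kd inc K y = 1 ∨ y ∈ inc e) → cnt inc c γ y = 0 ∧ cnt inc c (opp γ) y = 1)

/-- with `f` coloured `γ` in addition, all vertices of `K` are good -/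
def OKwith {V E : Type} [Fintype V] [DecidableEq V] [Fintype E] [DecidableEq E]
    (inc : E → Finset V) (K : Finset E) (c : E → Fin 3) (A : Finset V) (γ : Fin 3) : Prop :=
  (∀ e, c e ≠ 0 → e ∈ K) ∧ ∀ v ∈ VK inc K,
    cnt inc c 1 v + (if v ∈ A ∧ γ = 1 then 1 else 0) = 1 ∨
    cnt inc c 2 v + (if v ∈ A ∧ γ = 2 then 1 else 0) = 1

def S_F : Prop := ∀ (V E : Type) [Fintype V] [DecidableEq V] [Fintype E] [DecidableEq E]
  (inc : E → Finset V), (∀ e, (inc e).card = 3) → ∀ K, OddK inc K →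
  ∀ f, f ∉ K → 2 ≤ (inc f ∩ VK inc K).card → ¬ inc f ⊆ pri inc K → ∀ γ : Fin 3, γ ≠ 0 →
  ∃ c : E → Fin 3, OKwith inc K c (inc f) γ

def S_hit : Prop := ∀ (V E : Type) [Fintype V] [DecidableEq V] [Fintype E] [DecidableEq E]
  (inc : E → Finset V), (∀ e, (inc e).card = 3) → ∀ K, OddK inc K →
  ∀ x ∈ VK inc K, ∀ γ : Fin 3, γ ≠ 0 → ∃ c : E → Fin 3, OKwith inc K c {x} γ

/-! ### D. assembly -/

def S_start : Prop := ∀ (V E : Type) [Fintype V] [DecidableEq V] [Fintype E] [DecidableEq E]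
  (inc : E → Finset V), (∀ e, (inc e).card = 3) → ∀ s (D : Data inc s),
  ∃ c, Inv D c ∅ ∅ ∧ Zst D c

def S_step : Prop := ∀ (V E : Type) [Fintype V] [DecidableEq V] [Fintype E] [DecidableEq E]
  (inc : E → Finset V), (∀ e, (inc e).card = 3) → ∀ s (D : Data inc s) (c : E → Fin 3)
  (P S : Finset V) (w : V), Inv D c P S → w ∈ D.T → w ∉ P →
  ((∀ u ∈ D.U, u ∉ S → D.σ w ∉ VK inc (D.K u)) →
    cnt inc c 1 (D.σ w) = 1 ∧ cnt inc c 2 (D.σ w) = 1) →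
  (∀ w' ∈ D.T, w' ∉ P → w' ≠ w → dg inc s (D.σ w') = 2 → D.σ w' ≠ D.τ w) →
  ∃ c' S', S ⊆ S' ∧ Inv D c' (insert w P) S' ∧
    (∀ u ∈ S', u ∈ S ∨ ∃ v ∈ inc (D.g w), v ∈ VK inc (D.K u)) ∧
    (∀ v, v ∉ inc (D.g w) → (∀ u ∈ D.U, u ∉ S → v ∉ VK inc (D.K u)) →
      ∀ i, i ≠ 0 → cnt inc c' i v = cnt inc c i v) ∧
    (∀ e, c e ≠ 0 → c' e = c e)

def S_ph1 : Prop := ∀ (V E : Type) [Fintype V] [DecidableEq V] [Fintype E] [DecidableEq E]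
  (inc : E → Finset V), (∀ e, (inc e).card = 3) → ∀ s (D : Data inc s),
  ∃ c P S, Inv D c P S ∧ Zst D c ∧ ∀ w, w ∈ P ↔ w ∈ D.T ∧ dg inc s (D.σ w) = 1

def S_phZ : Prop := ∀ (V E : Type) [Fintype V] [DecidableEq V] [Fintype E] [DecidableEq E]
  (inc : E → Finset V), (∀ e, (inc e).card = 3) → ∀ s (D : Data inc s) c P S,
  Inv D c P S → Zst D c → (∀ w, w ∈ P ↔ w ∈ D.T ∧ dg inc s (D.σ w) = 1) →
  ∃ c' P' S', Inv D c' P' S' ∧
    ∀ w, w ∈ P' ↔ w ∈ D.T ∧ (dg inc s (D.σ w) = 1 ∨ ∃ x ∈ D.X, D.σ w ∈ inc x)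

def S_ph2 : Prop := ∀ (V E : Type) [Fintype V] [DecidableEq V] [Fintype E] [DecidableEq E]
  (inc : E → Finset V), (∀ e, (inc e).card = 3) → ∀ s (D : Data inc s) c P S,
  Inv D c P S →
  (∀ w, w ∈ P ↔ w ∈ D.T ∧ (dg inc s (D.σ w) = 1 ∨ ∃ x ∈ D.X, D.σ w ∈ inc x)) →
  ∃ c' S', Inv D c' D.T S'

def S_ph3 : Prop := ∀ (V E : Type) [Fintype V] [DecidableEq V] [Fintype E] [DecidableEq E]
  (inc : E → Finset V), (∀ e, (inc e).card = 3) → ∀ s (D : Data inc s) c S,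
  Inv D c D.T S → ∃ c', ∀ v, Good inc c' v

end Pool.Agent.W209.CF
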